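import Pool.Agent.Helper1.TY.Curve

/-!
# The trade-off curve is sharp
-/

set_option autoImplicit false

namespace Pool.Agent.Helper1.TY

open Finset Pool.Agent.Helper45.TY

lemma Cost.mono {q t n : ℕ} {d P P' : ℝ} {A : Set ℕ} (h : Cost q t d n A P) (hP : P ≤ P') :
    Cost q t d n A P' := by
  obtain ⟨Q, G, i, M, T, enc, π, h1, h2, h3⟩ := h
  exact ⟨Q, G, i, M, T, enc, π, h1, h2.trans hP, h3⟩

lemma exists_sidon {q l : ℕ} (hq : 2 ≤ q) {δ : ℝ} (hδ : 0 ≤ δ)
    (hl : 2 ≤ (1 / 2 - δ) * l) : ∃ S : Finset ℕ, (∀ a ∈ S, 2 * a < q ^ l) ∧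
      (∀ N, rpF S N ≤ 2) ∧ (q : ℝ) ^ (δ * l) ≤ S.card := by
  have hq2 : (2 : ℝ) ≤ q := by exact_mod_cast hq
  have hq0 : (0 : ℝ) < q := by linarith
  set X : ℝ := (q : ℝ) ^ ((l : ℝ) / 2) / 4 with hX
  have h4 : (4 : ℝ) ≤ (q : ℝ) ^ ((1 / 2 - δ) * l) := by
    have h1 : (2 : ℝ) ^ (2 : ℝ) = 4 := by
      rw [show (2 : ℝ) = ((2 : ℕ) : ℝ) by norm_num, Real.rpow_natCast]; norm_num
    calc (4 : ℝ) = (2 : ℝ) ^ (2 : ℝ) := h1.symm
      _ ≤ (q : ℝ) ^ (2 : ℝ) := Real.rpow_le_rpow (by norm_num) hq2 (by norm_num)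
      _ ≤ (q : ℝ) ^ ((1 / 2 - δ) * l) := Real.rpow_le_rpow_of_exponent_le (by linarith) hl
  have hXδ : (q : ℝ) ^ (δ * l) ≤ X := by
    have h1 : (q : ℝ) ^ ((l : ℝ) / 2) = (q : ℝ) ^ (δ * l) * (q : ℝ) ^ ((1 / 2 - δ) * l) := by
      rw [← Real.rpow_add hq0]
      congr 1
      ring
    rw [hX, h1, le_div_iff₀ (by norm_num)]
    exact mul_le_mul_of_nonneg_left h4 (by positivity)
  have hX1 : 1 ≤ X := by
    refine le_trans ?_ hXδ
    exact Real.one_le_rpow (by linarith) (by positivity)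
  set m : ℕ := ⌊X⌋₊ with hm
  have hm0 : m ≠ 0 := by
    have : 1 ≤ m := Nat.le_floor (by simpa using hX1)
    omega
  obtain ⟨p, hp, hmp, hpm⟩ := Nat.exists_prime_lt_and_le_two_mul m hm0
  refine ⟨Helper47.CF.E p, ?_, ?_, ?_⟩
  · intro a ha
    have h1 := Helper47.CF.E_lt ha
    have h2 : 4 * p ^ 2 ≤ q ^ l := by
      have h3 : (m : ℝ) ≤ X := Nat.floor_le (by linarith)
      have h5 : (p : ℝ) ≤ 2 * m := by exact_mod_cast hpm
      have h6 : (4 * (p : ℝ) ^ 2) ≤ (q : ℝ) ^ l := by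
        have h7 : (p : ℝ) ≤ 2 * X := by linarith
        have h8 : (p : ℝ) ^ 2 ≤ (2 * X) ^ 2 := pow_le_pow_left₀ (Nat.cast_nonneg _) h7 2
        have h9 : 4 * (2 * X) ^ 2 = ((q : ℝ) ^ ((l : ℝ) / 2)) ^ 2 := by
          rw [hX]; ring
        have h10 : ((q : ℝ) ^ ((l : ℝ) / 2)) ^ 2 = (q : ℝ) ^ l := by
          rw [← Real.rpow_natCast _ 2, ← Real.rpow_mul hq0.le, ← Real.rpow_natCast]
          congr 1
          push_cast
          ring
        rw [← h10, ← h9]
        linarith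
      exact_mod_cast h6
    omega
  · intro N
    exact Helper47.CF.rp_E hp N
  · rw [Helper47.CF.card_E]
    refine hXδ.trans ?_
    have h1 : X < m + 1 := Nat.lt_floor_add_one X
    have h2 : ((m : ℝ) + 1) ≤ p := by exact_mod_cast hmp
    linarith

/-- one choice of the blocks -/
lemma sharp_case {q t C₀ : ℕ} (hq : 2 ≤ q) (hG : GatherBlocks (q ^ t) C₀)
    (hC₀ : 1 ≤ C₀) {d δ : ℝ} (hδ : 0 ≤ δ) {n l k : ℕ} (hl1 : 1 ≤ l)
    (hl : 2 ≤ (1 / 2 - δ) * l) (hk : k * l ≤ n) (hkn : d * n ≤ t * δ * (k * l)) :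
    ∃ A : Set ℕ, Cost q t d n A
      ((C₀ * (n * l + n + 1) : ℕ) * Real.log ((C₀ : ℝ) + 1)) ∧ ∀ N, rep A N ≤ 2 ^ k := by
  obtain ⟨S, h1, h2, h3⟩ := exists_sidon hq hδ hl
  have hq0 : (0 : ℝ) < q := by positivity
  have hq1 : (1 : ℝ) ≤ q := by exact_mod_cast (by omega : 1 ≤ q)
  refine ⟨(blk (q ^ l) S k : Set ℕ), ?_, ?_⟩
  · refine cost_blk hq hG hC₀ hl1 hk h1 ?_
    calc (q : ℝ) ^ (d * n) ≤ (q : ℝ) ^ (t * δ * (k * l)) :=
          Real.rpow_le_rpow_of_exponent_le hq1 hkn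
      _ = (((q : ℝ) ^ (δ * l)) ^ k) ^ t := by
          rw [← pow_mul, ← Real.rpow_natCast _ (k * t), ← Real.rpow_mul hq0.le]
          congr 1
          push_cast
          ring
      _ ≤ ((S.card : ℝ) ^ k) ^ t := by
          refine pow_le_pow_left₀ (by positivity) ?_ t
          exact pow_le_pow_left₀ (by positivity) h3 k
  · intro N
    rw [rep_coe]
    exact rp_blk (by positivity) h1 h2 k N

lemma rep_Iio_le (X N : ℕ) : rep (Set.Iio X) N ≤ X := by
  unfold rep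
  have h : ((range X : Finset ℕ) : Set ℕ).ncard = X := by
    rw [Set.ncard_coe_finset, card_range]
  conv_rhs => rw [← h]
  refine Set.ncard_le_ncard_of_injOn (fun x => x.1) ?_ ?_ (finite_toSet _)
  · rintro ⟨a, b⟩ ⟨h1, _, _⟩
    rw [mem_coe, mem_range]
    exact h1
  · rintro ⟨a, b⟩ ⟨_, _, h1⟩ ⟨a', b'⟩ ⟨_, _, h2⟩ h3
    simp only at h1 h2 h3
    exact Prod.ext h3 (by simp only; omega)

/-- **Sharpness of the inequality for every cost.** -/
theorem sharp_curve (q t : ℕ) (d : ℝ) (hq : 2 ≤ q) (ht : 1 ≤ t) (hd : 0 < d) (hdt : 2 * d < t)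
    {C₀ : ℕ} (hC₀ : 1 ≤ C₀) (hG : GatherBlocks (q ^ t) C₀) :
    ∃ C : ℝ, 0 < C ∧ ∀ (n : ℕ) (P : ℝ), 1 ≤ n → (n : ℝ) ≤ P → P ≤ (n : ℝ) ^ 2 →
      ∃ A : Set ℕ, Cost q t d n A (C * P) ∧
        ∀ N, (rep A N : ℝ) ≤ Real.exp (C * n ^ 2 / P) := by
  have ht0 : (0 : ℝ) < t := by exact_mod_cast ht
  have hq1 : (1 : ℝ) ≤ q := by exact_mod_cast (by omega : 1 ≤ q)
  have hq0 : (0 : ℝ) < q := by linarith
  set β : ℝ := d / t with hβ
  have hβ0 : 0 < β := by positivity
  have hβ2 : β < 1 / 2 := by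
    rw [hβ, div_lt_iff₀ ht0]; linarith
  set δ : ℝ := (β + 1 / 2) / 2 with hδ
  have hδ0 : 0 < δ := by positivity
  have hδβ : β < δ := by rw [hδ]; linarith
  have hδ2 : δ < 1 / 2 := by rw [hδ]; linarith
  set θ : ℝ := β / δ with hθ
  have hθ0 : 0 < θ := by positivity
  have hθ1 : θ < 1 := (div_lt_one hδ0).2 hδβ
  set l₀ : ℕ := ⌈2 / (1 / 2 - δ)⌉₊ with hl₀
  have hl₀r : 2 ≤ (1 / 2 - δ) * l₀ := by
    have h1 : 2 / (1 / 2 - δ) ≤ l₀ := Nat.le_ceil _
    rw [div_le_iff₀ (by linarith)] at h1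
    linarith
  have hl₀1 : 1 ≤ l₀ := by
    rcases Nat.eq_zero_or_pos l₀ with h | h
    · rw [h] at hl₀r
      norm_num at hl₀r
    · exact h
  obtain ⟨C₁, hC₁, hcost⟩ := cost_le q t
  set Λ : ℝ := Real.log ((C₀ : ℝ) + 1) with hΛ
  have hC₀r : (1 : ℝ) ≤ C₀ := by exact_mod_cast hC₀
  have hΛ0 : 0 < Λ := Real.log_pos (by linarith)
  set B : ℝ := (2 + l₀) / (1 - θ) with hB
  have h1θ : 0 < 1 - θ := by linarith
  have hB0 : 0 < B := by positivity
  set C : ℝ := 1 + C₀ * (4 + l₀) * Λ + C₀ * 3 * B * Λ + C₁ * B + l₀ * Real.log q with hC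
  have hlogq : 0 ≤ Real.log q := Real.log_nonneg hq1
  have hCpos : 0 < C := by positivity
  have hterm1 : 0 ≤ (C₀ : ℝ) * (4 + l₀) * Λ := by positivity
  have hterm2 : 0 ≤ (C₀ : ℝ) * 3 * B * Λ := by positivity
  have hterm3 : 0 ≤ C₁ * B := by positivity
  have hterm4 : 0 ≤ (l₀ : ℝ) * Real.log q := by positivity
  refine ⟨C, hCpos, ?_⟩
  intro n P hn hnP hPn
  have hn1 : (1 : ℝ) ≤ n := by exact_mod_cast hn
  have hn0 : (0 : ℝ) < n := by linarith
  have hP0 : 0 < P := by linarith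
  have hratio : 1 ≤ (n : ℝ) ^ 2 / P := by
    rw [le_div_iff₀ hP0]; linarith
  set l₁ : ℕ := ⌈P / n⌉₊ with hl₁
  have hl₁r : P / n ≤ l₁ := Nat.le_ceil _
  have hl₁u : (l₁ : ℝ) ≤ P / n + 1 := (Nat.ceil_lt_add_one (by positivity)).le
  have hl₁1 : 1 ≤ l₁ := by
    have : (1 : ℝ) ≤ l₁ := le_trans (by rw [le_div_iff₀ hn0]; linarith) hl₁r
    exact_mod_cast this
  set l : ℕ := max l₁ l₀ with hl
  have hl1 : 1 ≤ l := hl₁1.trans (le_max_left _ _)
  have hlu : (l : ℝ) ≤ P / n + 1 + l₀ := by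
    have h1 : (l : ℝ) ≤ l₁ + l₀ := by
      exact_mod_cast max_le (Nat.le_add_right _ _) (Nat.le_add_left _ _)
    linarith
  have hnl : (n : ℝ) * l ≤ (2 + l₀) * P := by
    have h1 : (n : ℝ) * l ≤ n * (P / n + 1 + l₀) := mul_le_mul_of_nonneg_left hlu hn0.le
    have h2 : (n : ℝ) * (P / n + 1 + l₀) = P + n * (1 + l₀) := by
      field_simp
      ring
    have h3 : (n : ℝ) * (1 + l₀) ≤ P * (1 + l₀) :=
      mul_le_mul_of_nonneg_right hnP (by positivity)
    rw [h2] at h1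
    linarith
  by_cases hcase : (l : ℝ) ≤ (1 - θ) * n
  · -- many blocks
    have hk1 : n / l * l ≤ n := Nat.div_mul_le_self _ _
    have hk2 : θ * n ≤ ((n / l : ℕ) : ℝ) * l := by
      have h1 : n < n / l * l + l := Nat.lt_div_mul_add (by omega)
      have h2 : (n : ℝ) < ((n / l : ℕ) : ℝ) * l + l := by exact_mod_cast h1
      linarith
    obtain ⟨A, hA, hrep⟩ := sharp_case (d := d) hq hG hC₀ hδ0.le hl1
      (le_trans hl₀r (mul_le_mul_of_nonneg_left (by exact_mod_cast le_max_right _ _)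
        (by linarith))) hk1 (by
        have h1 : d * n = t * δ * (θ * n) := by
          rw [hθ, hβ]
          field_simp
        rw [h1]
        exact mul_le_mul_of_nonneg_left hk2 (by positivity))
    refine ⟨A, hA.mono ?_, ?_⟩
    · have h1 : ((C₀ * (n * l + n + 1) : ℕ) : ℝ) ≤ C₀ * (4 + l₀) * P := by
        push_cast
        have h2 : (n : ℝ) * l + n + 1 ≤ (4 + l₀) * P := by nlinarith
        calc (C₀ : ℝ) * (n * l + n + 1) ≤ C₀ * ((4 + l₀) * P) :=
              mul_le_mul_of_nonneg_left h2 (by positivity)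
          _ = C₀ * (4 + l₀) * P := by ring
      calc ((C₀ * (n * l + n + 1) : ℕ) : ℝ) * Λ ≤ C₀ * (4 + l₀) * P * Λ :=
            mul_le_mul_of_nonneg_right h1 hΛ0.le
        _ = (C₀ * (4 + l₀) * Λ) * P := by ring
        _ ≤ C * P := mul_le_mul_of_nonneg_right (by rw [hC]; linarith) hP0.le
    · intro N
      have h1 : (rep A N : ℝ) ≤ (2 : ℝ) ^ (n / l) := by exact_mod_cast hrep N
      have h2 : ((n / l : ℕ) : ℝ) ≤ (n : ℝ) ^ 2 / P := by
        have h3 : ((n / l : ℕ) : ℝ) ≤ n / l := Nat.cast_div_le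
        have h4 : (n : ℝ) / l ≤ n / (P / n) := by
          refine div_le_div_of_nonneg_left hn0.le (by positivity) ?_
          exact hl₁r.trans (by exact_mod_cast le_max_left _ _)
        have h5 : (n : ℝ) / (P / n) = (n : ℝ) ^ 2 / P := by
          field_simp
        rw [h5] at h4
        exact h3.trans h4
      calc (rep A N : ℝ) ≤ (2 : ℝ) ^ (n / l) := h1
        _ ≤ (Real.exp 1) ^ (n / l) := by
            refine pow_le_pow_left₀ (by norm_num) ?_ _
            have := Real.add_one_le_exp (1 : ℝ)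
            linarith
        _ = Real.exp ((n / l : ℕ) : ℝ) := by
            rw [← Real.exp_nat_mul, mul_one]
        _ ≤ Real.exp (C * n ^ 2 / P) := by
            apply Real.exp_le_exp.2
            have h6 : C * (n : ℝ) ^ 2 / P = C * ((n : ℝ) ^ 2 / P) := by ring
            rw [h6]
            have h7 : 1 ≤ C := by rw [hC]; linarith
            nlinarith
  · push Not at hcase
    have hn2 : (n : ℝ) ^ 2 ≤ B * P := by
      rw [hB, div_mul_eq_mul_div, le_div_iff₀ h1θ]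
      have h1 : (1 - θ) * n * n ≤ l * n := mul_le_mul_of_nonneg_right hcase.le hn0.le
      nlinarith
    by_cases hnl₀ : l₀ ≤ n
    · -- one block
      obtain ⟨A, hA, hrep⟩ := sharp_case (d := d) (k := 1) (l := n) (n := n) hq hG hC₀ hδ0.le hn
        (le_trans hl₀r (mul_le_mul_of_nonneg_left (by exact_mod_cast hnl₀)
          (by linarith))) (by omega) (by
          have h1 : d * n = t * β * n := by
            rw [hβ]
            field_simp
          rw [h1]
          push_cast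
          have h2 : t * β * n ≤ t * δ * n := by
            refine mul_le_mul_of_nonneg_right ?_ hn0.le
            exact mul_le_mul_of_nonneg_left hδβ.le ht0.le
          linarith)
      refine ⟨A, hA.mono ?_, ?_⟩
      · have h1 : ((C₀ * (n * n + n + 1) : ℕ) : ℝ) ≤ C₀ * 3 * (B * P) := by
          push_cast
          have h2 : (n : ℝ) * n + n + 1 ≤ 3 * (B * P) := by nlinarith
          calc (C₀ : ℝ) * (n * n + n + 1) ≤ C₀ * (3 * (B * P)) :=
                mul_le_mul_of_nonneg_left h2 (by positivity)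
            _ = C₀ * 3 * (B * P) := by ring
        calc ((C₀ * (n * n + n + 1) : ℕ) : ℝ) * Λ ≤ C₀ * 3 * (B * P) * Λ :=
              mul_le_mul_of_nonneg_right h1 hΛ0.le
          _ = (C₀ * 3 * B * Λ) * P := by ring
          _ ≤ C * P := mul_le_mul_of_nonneg_right (by rw [hC]; linarith) hP0.le
      · intro N
        have h1 : (rep A N : ℝ) ≤ 2 := by
          have := hrep N
          rw [pow_one] at this
          exact_mod_cast this
        refine h1.trans ?_
        have h2 := Real.add_one_le_exp (1 : ℝ)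
        have h3 : Real.exp 1 ≤ Real.exp (C * n ^ 2 / P) := by
          apply Real.exp_le_exp.2
          have h6 : C * (n : ℝ) ^ 2 / P = C * ((n : ℝ) ^ 2 / P) := by ring
          rw [h6]
          have h7 : 1 ≤ C := by rw [hC]; linarith
          nlinarith
        linarith
    · -- few digits
      push Not at hnl₀
      refine ⟨Set.Iio (q ^ n), (hcost d n (Set.Iio (q ^ n)) hn ?_).mono ?_, ?_⟩
      · have h1 : num (Set.Iio (q ^ n)) (q ^ n) = q ^ n := by
          unfold num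
          rw [Set.inter_self]
          have h2 : (Set.Iio (q ^ n)) = ((range (q ^ n) : Finset ℕ) : Set ℕ) := by
            ext x; simp
          rw [h2, Set.ncard_coe_finset, card_range]
        rw [h1]
        push_cast
        rw [← pow_mul, ← Real.rpow_natCast (q : ℝ) (n * t)]
        refine Real.rpow_le_rpow_of_exponent_le hq1 ?_
        push_cast
        nlinarith
      · calc C₁ * (n : ℝ) ^ 2 ≤ C₁ * (B * P) := mul_le_mul_of_nonneg_left hn2 hC₁.le
          _ = (C₁ * B) * P := by ring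
          _ ≤ C * P := mul_le_mul_of_nonneg_right (by rw [hC]; linarith) hP0.le
      · intro N
        have h1 : (rep (Set.Iio (q ^ n)) N : ℝ) ≤ (q : ℝ) ^ n := by
          exact_mod_cast rep_Iio_le (q ^ n) N
        refine h1.trans ?_
        have h2 : (q : ℝ) ^ n = Real.exp (n * Real.log q) := by
          rw [Real.exp_nat_mul, Real.exp_log hq0]
        rw [h2]
        apply Real.exp_le_exp.2
        have h6 : C * (n : ℝ) ^ 2 / P = C * ((n : ℝ) ^ 2 / P) := by ring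
        rw [h6]
        have h3 : (n : ℝ) * Real.log q ≤ l₀ * Real.log q :=
          mul_le_mul_of_nonneg_right (by exact_mod_cast hnl₀.le) hlogq
        have h4 : (l₀ : ℝ) * Real.log q ≤ C := by rw [hC]; linarith
        nlinarith

end Pool.Agent.Helper1.TY
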