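import Pool.Agent.Helper1.TY.Sharp
import Pool.Agent.Helper45.TY.Blocks

/-!
# Cost and representations: the inequality and its sharpness (MP_12a1af)
-/

set_option autoImplicit false

namespace Pool.Agent.Helper1.TY

open Filter Pool.Agent.Helper45.TY

lemma gatherBlocks (r : ℕ) : GatherBlocks r (r + 5) := by
  intro n l hl L
  obtain ⟨Q, G, i, M, enc, hQ, hacc, hin⟩ := gather_blocks n r l hl L
  refine ⟨Q, G, i, M, enc, by omega, hacc, ?_⟩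
  intro w hw
  obtain ⟨k, hk, h⟩ := hin w hw
  refine ⟨k, hk.trans ?_, h⟩
  have h1 : 2 * n * l + 2 * n + 1 ≤ 5 * (n * l + n + 1) := by
    have : 2 * n * l = 2 * (n * l) := by ring
    omega
  exact h1.trans (Nat.mul_le_mul_right _ (by omega))

theorem main2 (q t : ℕ) (d : ℝ) (hq : 2 ≤ q) (ht : 1 ≤ t) (hd : 0 < d) :
    (∃ c C : ℝ, 0 < c ∧ 0 < C ∧ ∀ n : ℕ, 1 ≤ n →
      (∀ (A : Set ℕ) (P : ℝ), Cost q t d n A P →
        ∃ N < 2 * q ^ n, Real.exp (c * n ^ 2 / P) ≤ rep A N) ∧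
      (2 * d < t → ∀ P : ℝ, n ≤ P → P ≤ n ^ 2 →
        ∃ A : Set ℕ, Cost q t d n A (C * P) ∧ ∀ N, (rep A N : ℝ) ≤ Real.exp (C * n ^ 2 / P)) ∧
      ∀ A : Set ℕ, (q : ℝ) ^ (d * n) ≤ (num A (q ^ n) : ℝ) ^ t → Cost q t d n A (C * n ^ 2)) ∧
    ∀ A : Set ℕ, (∀ ε : ℝ, 0 < ε → ∃ᶠ n : ℕ in atTop, Cost q t d n A (ε * n ^ 2)) →
      ∀ g : ℕ, ∃ N, g ≤ rep A N := by
  obtain ⟨c, hc, h1⟩ := of_cost q t hq ht d hd
  obtain ⟨C₁, hC₁, h2⟩ := cost_le q t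
  have h3 : ∃ C : ℝ, 0 < C ∧ (2 * d < t → ∀ (n : ℕ) (P : ℝ), 1 ≤ n → (n : ℝ) ≤ P →
      P ≤ (n : ℝ) ^ 2 → ∃ A : Set ℕ, Cost q t d n A (C * P) ∧
        ∀ N, (rep A N : ℝ) ≤ Real.exp (C * n ^ 2 / P)) := by
    by_cases hdt : 2 * d < t
    · obtain ⟨C, hC, h⟩ := sharp_curve q t d hq ht hd hdt (by omega) (gatherBlocks (q ^ t))
      exact ⟨C, hC, fun _ => h⟩
    · exact ⟨1, one_pos, fun h => absurd h hdt⟩
  obtain ⟨C₂, hC₂, h4⟩ := h3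
  refine ⟨⟨c, C₁ + C₂, hc, by positivity, fun n hn => ⟨fun A P hP => h1 n A P hn hP, ?_, ?_⟩⟩,
    fun A hA g => unbounded q t hq ht d hd A hA g⟩
  · intro hdt P hnP hPn
    obtain ⟨A, hA, hr⟩ := h4 hdt n P hn hnP hPn
    have hP0 : 0 ≤ P := le_trans (Nat.cast_nonneg n) hnP
    refine ⟨A, hA.mono (mul_le_mul_of_nonneg_right (by linarith) hP0), fun N => ?_⟩
    refine (hr N).trans (Real.exp_le_exp.2 ?_)
    exact div_le_div_of_nonneg_right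
      (mul_le_mul_of_nonneg_right (by linarith) (by positivity)) hP0
  · intro A hA
    exact (h2 d n A hn hA).mono (mul_le_mul_of_nonneg_right (by linarith) (by positivity))

end Pool.Agent.Helper1.TY
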