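import Pool.Agent.Helper1.TY.Sec
import Pool.Agent.Helper45.TY.Morphic

/-!
# Bounded number of sections, automatic sets
-/

namespace Pool.Agent.Helper1.TY

open Finset Pool.Agent.Helper45.TY

/-- The high sections of `A` at the level `M`: the sets `{n | M * n + r ∈ A}`, `r < M`. -/
def resSec (A : Set ℕ) (M : ℕ) : Set (Set ℕ) := {T | ∃ r < M, T = {n | M * n + r ∈ A}}

lemma highSec_le {A : Set ℕ} {M X : ℕ} (h : M ∣ X) :
    (highSec A M X).encard ≤ (resSec A M).encard := by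
  obtain ⟨b, rfl⟩ := h
  have hsub : highSec A M (M * b) ⊆ (fun T : Set ℕ => {n | n < b ∧ n ∈ T}) '' resSec A M := by
    rintro T ⟨r, hr, rfl⟩
    refine ⟨_, ⟨r, hr, rfl⟩, ?_⟩
    ext n
    simp only [Set.mem_ofPred_eq]
    have h1 : M * n + r < M * b ↔ n < b := by
      constructor
      · intro h
        have h2 : M * n < M * b := by omega
        exact Nat.lt_of_mul_lt_mul_left h2
      · intro h
        calc M * n + r < M * n + M := by omega
          _ = M * (n + 1) := by ring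
          _ ≤ M * b := Nat.mul_le_mul_left _ h
    rw [h1]
  exact (Set.encard_le_encard hsub).trans (Set.encard_image_le _ _)

lemma card_cutF (A : Set ℕ) (X : ℕ) : (cutF A X).card = num A X := by
  unfold num
  rw [← Set.ncard_coe_finset]
  congr 1
  ext a
  rw [mem_coe, mem_cutF]
  constructor
  · rintro ⟨h1, h2⟩; exact ⟨h2, h1⟩
  · rintro ⟨h1, h2⟩; exact ⟨h2, h1⟩

lemma rpF_cutF_le (A : Set ℕ) (X N : ℕ) : rpF (cutF A X) N ≤ rep A N := by
  have h := rpF_le_rep (A := A) (P := cutF A X) (t := 0) (fun x hx => by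
    rw [zero_add]; exact (mem_cutF.1 hx).2) N
  simpa using h

/-- The main inequality, in terms of `rep` and `num`. -/
theorem sections (Q : ℕ) (δ : ℝ) (hδ : 0 < δ) : ∃ c : ℝ, 0 < c ∧
    ∀ (J : ℕ) (m : ℕ → ℕ), 1 ≤ J → Chain Q J m → ∀ s : ℕ, 2 ≤ s → ∀ A : Set ℕ,
    ((∀ j ≤ J, (highSec A (m j) (m J)).encard ≤ s) ∨
      (∀ j ≤ J, (lowSec A (m j) (m J)).encard ≤ s)) →
    (m J : ℝ) ^ δ ≤ num A (m J) →
    ∃ N < 2 * m J, (m J : ℝ) ^ (c / Real.log s) ≤ rep A N := by
  obtain ⟨c, hc, h⟩ := few_sections Q δ hδ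
  refine ⟨c, hc, ?_⟩
  intro J m hJ hm s hs A hA hcard
  obtain ⟨N, hN⟩ := h J m hJ hm s hs A hA (by rw [card_cutF]; exact hcard)
  have hmpos : (0 : ℝ) < m J := by
    have : 0 < m J := lt_of_lt_of_le (Nat.pos_of_ne_zero (by positivity)) (hm.two_pow_le J le_rfl)
    exact_mod_cast this
  have hpos : 0 < rpF (cutF A (m J)) N := by
    have h2 : (0 : ℝ) < (m J : ℝ) ^ (c / Real.log s) := by positivity
    exact_mod_cast h2.trans_le hN
  refine ⟨N, ?_, hN.trans (by exact_mod_cast rpF_cutF_le A (m J) N)⟩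
  exact rpF_bound (fun x hx => (mem_cutF.1 hx).1) hpos

/-- Powers of `q`, every large `x`. -/
theorem bounded_sections (q : ℕ) (hq : 2 ≤ q) (δ : ℝ) (hδ : 0 < δ) : ∃ c : ℝ, 0 < c ∧
    ∀ s : ℕ, 2 ≤ s → ∀ A : Set ℕ, (∀ j, (resSec A (q ^ j)).encard ≤ s) →
    ∀ x : ℕ, q ≤ x → (x : ℝ) ^ δ ≤ num A x →
    ∃ N < 2 * q * x, (x : ℝ) ^ (c / Real.log s) ≤ rep A N := by
  obtain ⟨c, hc, h⟩ := sections q (δ / 2) (by positivity)
  refine ⟨c, hc, ?_⟩
  intro s hs A hA x hx hnum
  have hs2 : (2 : ℝ) ≤ s := by exact_mod_cast hs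
  have hlogs : 0 < Real.log s := Real.log_pos (by linarith)
  -- the level
  have hx0 : x ≠ 0 := by omega
  set J := Nat.log q x + 1 with hJ
  have h1 : x < q ^ J := Nat.lt_pow_succ_log_self (by omega) x
  have h2 : q ^ J ≤ q * x := by
    rw [hJ, pow_succ, mul_comm]
    exact Nat.mul_le_mul_left _ (Nat.pow_log_le_self q hx0)
  have hchain : Chain q J (fun j => q ^ j) := by
    refine ⟨pow_zero q, fun j _ => ⟨pow_dvd_pow q (Nat.le_succ j), ?_, ?_⟩⟩
    · change 2 * q ^ j ≤ q ^ (j + 1)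
      rw [pow_succ, mul_comm]
      exact Nat.mul_le_mul_left _ hq
    · change q ^ (j + 1) ≤ q * q ^ j
      rw [pow_succ, mul_comm]
  have hxr : (q : ℝ) ≤ x := by exact_mod_cast hx
  have hx1 : (0 : ℝ) < x := lt_of_lt_of_le (by exact_mod_cast (by omega : 0 < q)) hxr
  have hle : ((q ^ J : ℕ) : ℝ) ≤ (x : ℝ) ^ (2 : ℝ) := by
    have h3 : ((q ^ J : ℕ) : ℝ) ≤ q * x := by exact_mod_cast h2
    have h4 : (x : ℝ) ^ (2 : ℝ) = x * x := by
      rw [show (2 : ℝ) = ((2 : ℕ) : ℝ) by norm_num, Real.rpow_natCast]; ring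
    rw [h4]
    nlinarith
  have hcard : ((q ^ J : ℕ) : ℝ) ^ (δ / 2) ≤ num A (q ^ J) := by
    have h3 : ((q ^ J : ℕ) : ℝ) ^ (δ / 2) ≤ ((x : ℝ) ^ (2 : ℝ)) ^ (δ / 2) :=
      Real.rpow_le_rpow (Nat.cast_nonneg _) hle (by positivity)
    have h4 : ((x : ℝ) ^ (2 : ℝ)) ^ (δ / 2) = (x : ℝ) ^ δ := by
      rw [← Real.rpow_mul hx1.le]
      congr 1
      ring
    have h5 : num A x ≤ num A (q ^ J) := by
      unfold num
      refine Set.ncard_le_ncard ?_ ((Set.finite_Iio _).inter_of_right _)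
      exact Set.inter_subset_inter_right _ (Set.Iio_subset_Iio h1.le)
    calc _ ≤ _ := h3
      _ = _ := h4
      _ ≤ _ := hnum
      _ ≤ _ := by exact_mod_cast h5
  obtain ⟨N, hN, hr⟩ := h J (fun j => q ^ j) (by omega) hchain s hs A
    (Or.inl fun j hj => (highSec_le (pow_dvd_pow q hj)).trans (hA j)) hcard
  refine ⟨N, ?_, le_trans ?_ hr⟩
  · have : N < 2 * q ^ J := hN
    have h3 : 2 * q * x = 2 * (q * x) := by ring
    omega
  · refine Real.rpow_le_rpow hx1.le ?_ (by positivity)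
    exact_mod_cast h1.le

/-- The digit lists of a set, least significant digit first, without trailing zeros. -/
def digitLanguage (q : ℕ) (A : Set ℕ) : Language ℕ := (Nat.digits q '' A : Set (List ℕ))

theorem resSec_of_regular {q : ℕ} (hq : 2 ≤ q) {A : Set ℕ}
    (hA : (digitLanguage q A).IsRegular) :
    ∃ s : ℕ, 2 ≤ s ∧ ∀ j, (resSec A (q ^ j)).encard ≤ s := by
  classical
  obtain ⟨σ, _, M, hM⟩ := hA
  have hmem : ∀ a, a ∈ A ↔ Nat.digits q a ∈ M.accepts := by
    intro a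
    rw [hM]
    constructor
    · intro h
      exact ⟨a, h, rfl⟩
    · rintro ⟨a', h, h'⟩
      have := Nat.digits.injective q h'
      rw [← this]; exact h
  have hfin : Finite (σ × Prop) := inferInstance
  have _ := Fintype.ofFinite (σ × Prop)
  refine ⟨max (Fintype.card (σ × Prop)) 2, le_max_right _ _, fun j => ?_⟩
  -- the state reached after the padded digits of `r`
  let w : ℕ → List ℕ := fun r => Nat.digits q r ++ List.replicate (j - (Nat.digits q r).length) 0
  let g : ℕ → σ × Prop := fun r => (M.evalFrom M.start (w r), r ∈ A)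
  have hlen : ∀ r < q ^ j, (Nat.digits q r).length ≤ j := by
    intro r hr
    rcases Nat.eq_zero_or_pos r with h | h
    · rw [h]; simp
    · exact (Nat.digits_length_le_iff (by omega) r).2 hr
  have hdig : ∀ r < q ^ j, ∀ n, n ≠ 0 → Nat.digits q (q ^ j * n + r) = w r ++ Nat.digits q n := by
    intro r hr n hn
    have h1 := Nat.digits_append_zeroes_append_digits (b := q) (n := r) (m := n)
      (k := j - (Nat.digits q r).length) (by omega) (by omega)
    rw [Nat.add_sub_cancel' (hlen r hr)] at h1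
    change _ = (Nat.digits q r ++ List.replicate (j - (Nat.digits q r).length) 0) ++ _
    rw [add_comm]
    exact h1.symm
  have hsec : ∀ r < q ^ j, ∀ r' < q ^ j, g r = g r' →
      {n | q ^ j * n + r ∈ A} = {n | q ^ j * n + r' ∈ A} := by
    intro r hr r' hr' hg
    ext n
    simp only [Set.mem_ofPred_eq]
    rcases Nat.eq_zero_or_pos n with h | h
    · rw [h, mul_zero, zero_add, zero_add]
      exact iff_of_eq (congrArg Prod.snd hg)
    · rw [hmem, hmem, hdig r hr n (by omega), hdig r' hr' n (by omega), DFA.mem_accepts,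
        DFA.mem_accepts]
      have h2 : M.evalFrom M.start (w r) = M.evalFrom M.start (w r') := congrArg Prod.fst hg
      have h3 : ∀ u : List ℕ, M.eval (u ++ Nat.digits q n) =
          M.evalFrom (M.evalFrom M.start u) (Nat.digits q n) := fun u =>
        DFA.evalFrom_of_append M M.start u (Nat.digits q n)
      rw [h3 (w r), h3 (w r'), h2]
  -- counting
  have hsub : resSec A (q ^ j) ⊆ (fun x : σ × Prop => {n | ∃ r < q ^ j, g r = x ∧
      q ^ j * n + r ∈ A}) '' Set.univ := by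
    rintro T ⟨r, hr, rfl⟩
    refine ⟨g r, Set.mem_univ _, ?_⟩
    ext n
    simp only [Set.mem_ofPred_eq]
    constructor
    · rintro ⟨r', hr', h1, h2⟩
      have := hsec r' hr' r hr h1
      have h3 : n ∈ {n | q ^ j * n + r' ∈ A} := h2
      rw [this] at h3
      exact h3
    · intro h1
      exact ⟨r, hr, rfl, h1⟩
  refine (Set.encard_le_encard hsub).trans ((Set.encard_image_le _ _).trans ?_)
  rw [Set.encard_univ, ENat.card_eq_coe_fintype_card]
  exact_mod_cast le_max_left _ _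

/-- **Automatic sets.** -/
theorem automatic (q : ℕ) (hq : 2 ≤ q) (A : Set ℕ) (hA : (digitLanguage q A).IsRegular) (δ : ℝ)
    (hδ : 0 < δ) : ∃ c : ℝ, 0 < c ∧ ∀ x : ℕ, q ≤ x → (x : ℝ) ^ δ ≤ num A x →
    ∃ N < 2 * q * x, (x : ℝ) ^ c ≤ rep A N := by
  obtain ⟨s, hs, h⟩ := resSec_of_regular hq hA
  obtain ⟨c, hc, hmain⟩ := bounded_sections q hq δ hδ
  have hs2 : (2 : ℝ) ≤ s := by exact_mod_cast hs
  have hlogs : 0 < Real.log s := Real.log_pos (by linarith)
  exact ⟨c / Real.log s, by positivity, fun x hx hnum => hmain s hs A h x hx hnum⟩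

end Pool.Agent.Helper1.TY
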