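import Pool.Agent.Helper45.TY.Box

/-!
# Words as numbers in base `q`, the digits written in any order
-/

set_option autoImplicit false

namespace Pool.Agent.Helper1.TY

open Finset Pool.Agent.Helper45.TY

/-- The value of the digit `a` on the cell `i`, if the cell `i` carries the digit number `π i`. -/
def digitVal {n q : ℕ} (π : Equiv.Perm (Fin n)) (i : Fin n) (a : Fin q) : ℕ :=
  a.1 * q ^ (π i).1

lemma val_digitVal {n q : ℕ} (π : Equiv.Perm (Fin n)) (w : Fin n → Fin q) :
    Helper45.TY.val (digitVal π) w = (finFunctionFinEquiv (w ∘ π.symm) : ℕ) := by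
  rw [finFunctionFinEquiv_apply]
  unfold Helper45.TY.val digitVal
  rw [← Equiv.sum_comp π.symm]
  refine sum_congr rfl fun i _ => ?_
  rw [Equiv.apply_symm_apply]
  rfl

lemma val_digitVal_injective {n q : ℕ} (π : Equiv.Perm (Fin n)) :
    Function.Injective (Helper45.TY.val (digitVal (q := q) π)) := by
  intro w w' h
  rw [val_digitVal, val_digitVal] at h
  have h1 := finFunctionFinEquiv.injective (Fin.ext h)
  funext i
  have h2 := congrFun h1 (π i)
  simpa using h2

lemma val_digitVal_lt {n q : ℕ} (π : Equiv.Perm (Fin n)) (w : Fin n → Fin q) :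
    Helper45.TY.val (digitVal π) w < q ^ n := by
  rw [val_digitVal]
  exact (finFunctionFinEquiv (w ∘ π.symm)).2

/-- Every number below `q ^ n` is the value of a word. -/
lemma exists_val_eq {n q : ℕ} (π : Equiv.Perm (Fin n)) {a : ℕ} (ha : a < q ^ n) :
    ∃ w : Fin n → Fin q, Helper45.TY.val (digitVal π) w = a := by
  refine ⟨finFunctionFinEquiv.symm ⟨a, ha⟩ ∘ π, ?_⟩
  rw [val_digitVal]
  have : (finFunctionFinEquiv.symm (⟨a, ha⟩ : Fin (q ^ n)) ∘ π) ∘ π.symm =
      finFunctionFinEquiv.symm (⟨a, ha⟩ : Fin (q ^ n)) := by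
    funext i
    simp
  rw [this, Equiv.apply_symm_apply]

end Pool.Agent.Helper1.TY
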