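import Pool.Agent.Helper1.TY.Tracks
import Pool.Agent.Helper47.CF.Sharp

/-!
# Block sums of Sidon sets
-/

set_option autoImplicit false

namespace Pool.Agent.Helper1.TY

open Finset Pool.Agent.Helper45.TY

/-- the numbers with `m` digits in `S` to the base `b` -/
def blk (b : ℕ) (S : Finset ℕ) : ℕ → Finset ℕ
  | 0 => {0}
  | m + 1 => (S ×ˢ blk b S m).image fun p => p.1 + b * p.2

variable {b : ℕ} {S : Finset ℕ}

lemma mem_blk_succ (hb : 0 < b) (hS : ∀ a ∈ S, 2 * a < b) (m x : ℕ) :
    x ∈ blk b S (m + 1) ↔ x % b ∈ S ∧ x / b ∈ blk b S m := by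
  show x ∈ (S ×ˢ blk b S m).image (fun p => p.1 + b * p.2) ↔ _
  rw [mem_image]
  constructor
  · rintro ⟨⟨a, c⟩, hac, rfl⟩
    rw [mem_product] at hac
    obtain ⟨ha, hc⟩ := hac
    simp only at ha hc ⊢
    have h1 : a < b := by
      have := hS a ha
      omega
    rw [Nat.add_mul_mod_self_left, Nat.mod_eq_of_lt h1, Nat.add_mul_div_left _ _ hb,
      Nat.div_eq_of_lt h1, zero_add]
    exact ⟨ha, hc⟩
  · rintro ⟨h1, h2⟩
    exact ⟨(x % b, x / b), mem_product.2 ⟨h1, h2⟩, Nat.mod_add_div x b⟩

lemma card_blk (hb : 0 < b) (hS : ∀ a ∈ S, 2 * a < b) (m : ℕ) :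
    (blk b S m).card = S.card ^ m := by
  induction m with
  | zero => simp [blk]
  | succ m ih =>
    show ((S ×ˢ blk b S m).image (fun p => p.1 + b * p.2)).card = _
    rw [card_image_of_injOn, card_product, ih, pow_succ']
    rintro ⟨a, c⟩ hac ⟨a', c'⟩ hac' h
    rw [mem_coe, mem_product] at hac hac'
    simp only at hac hac' h
    have h1 := hS a hac.1
    have h2 := hS a' hac'.1
    have h3 : a < b := by omega
    have h4 : a' < b := by omega
    have h5 := congrArg (· % b) h
    have h6 := congrArg (· / b) h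
    simp only [Nat.add_mul_mod_self_left] at h5
    simp only [Nat.add_mul_div_left _ _ hb] at h6
    rw [Nat.mod_eq_of_lt h3, Nat.mod_eq_of_lt h4] at h5
    rw [Nat.div_eq_of_lt h3, Nat.div_eq_of_lt h4, zero_add, zero_add] at h6
    rw [h5, h6]

lemma blk_lt (hb : 0 < b) (hS : ∀ a ∈ S, 2 * a < b) (m : ℕ) :
    ∀ x ∈ blk b S m, x < b ^ m := by
  induction m with
  | zero =>
    intro x hx
    simp only [blk, mem_singleton] at hx
    rw [hx]
    positivity
  | succ m ih =>
    intro x hx
    rw [mem_blk_succ hb hS] at hx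
    have h1 := ih _ hx.2
    rw [Nat.div_lt_iff_lt_mul hb] at h1
    rw [pow_succ]
    exact h1

lemma rp_blk (hb : 0 < b) (hS : ∀ a ∈ S, 2 * a < b) {g : ℕ} (hg : ∀ N, rpF S N ≤ g) (m : ℕ) :
    ∀ N, rpF (blk b S m) N ≤ g ^ m := by
  induction m with
  | zero =>
    intro N
    unfold rpF
    rw [pow_zero]
    refine (card_filter_le _ _).trans ?_
    simp [blk]
  | succ m ih =>
    intro N
    have h1 : rpF (blk b S (m + 1)) N ≤ rpF S (N % b) * rpF (blk b S m) (N / b) := by
      unfold rpF
      rw [← card_product]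
      refine card_le_card_of_injOn
        (fun p => ((p.1 % b, p.2 % b), (p.1 / b, p.2 / b))) ?_ ?_
      · rintro ⟨x, y⟩ hxy
        rw [mem_coe, mem_filter, mem_product, mem_blk_succ hb hS, mem_blk_succ hb hS] at hxy
        obtain ⟨⟨⟨h1, h2⟩, h3, h4⟩, h5⟩ := hxy
        simp only at h1 h2 h3 h4 h5
        have e1 := hS _ h1
        have e2 := hS _ h3
        have e3 : x % b + y % b < b := by omega
        have e4 := Nat.div_add_mod x b
        have e5 := Nat.div_add_mod y b
        have e6 : N = (x % b + y % b) + b * (x / b + y / b) := by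
          rw [mul_add]
          omega
        have e7 : x % b + y % b = N % b := by
          rw [e6, Nat.add_mul_mod_self_left, Nat.mod_eq_of_lt e3]
        have e8 : x / b + y / b = N / b := by
          rw [e6, Nat.add_mul_div_left _ _ hb, Nat.div_eq_of_lt e3, zero_add]
        rw [mem_coe, mem_product, mem_filter, mem_filter, mem_product, mem_product]
        exact ⟨⟨⟨h1, h3⟩, e7⟩, ⟨h2, h4⟩, e8⟩
      · rintro ⟨x, y⟩ _ ⟨x', y'⟩ _ h
        simp only [Prod.mk.injEq] at h
        obtain ⟨⟨h1, h2⟩, h3, h4⟩ := h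
        have e1 := Nat.div_add_mod x b
        have e2 := Nat.div_add_mod y b
        rw [h3, h1, Nat.div_add_mod] at e1
        rw [h4, h2, Nat.div_add_mod] at e2
        rw [e1, e2]
    calc _ ≤ _ := h1
      _ ≤ g * g ^ m := Nat.mul_le_mul (hg _) (ih _)
      _ = g ^ (m + 1) := by rw [pow_succ']

/-- the digits of a list, block by block -/
lemma ofDigits_mem_blk {q l : ℕ} (hq : 2 ≤ q) (hS : ∀ a ∈ S, 2 * a < q ^ l) :
    ∀ (k : ℕ) (L : List ℕ), (∀ a ∈ L, a < q) → k * l ≤ L.length →
      (∀ j < k, Nat.ofDigits q ((L.drop (j * l)).take l) ∈ S) →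
      Nat.ofDigits q (L.drop (k * l)) = 0 → Nat.ofDigits q L ∈ blk (q ^ l) S k := by
  have hb : 0 < q ^ l := by positivity
  intro k
  induction k with
  | zero =>
    intro L _ _ _ h
    rw [zero_mul, List.drop_zero] at h
    rw [h]
    simp [blk]
  | succ k ih =>
    intro L hL hlen hj h0
    have h1 : (L.take l).length = l := by
      rw [List.length_take]
      have : l ≤ (k + 1) * l := Nat.le_mul_of_pos_left _ (by omega)
      omega
    have h2 : Nat.ofDigits q L =
        Nat.ofDigits q (L.take l) + q ^ l * Nat.ofDigits q (L.drop l) := by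
      conv_lhs => rw [← List.take_append_drop l L, Nat.ofDigits_append, h1]
    have h3 : Nat.ofDigits q (L.take l) ∈ S := by
      have := hj 0 (by omega)
      rw [zero_mul, List.drop_zero] at this
      exact this
    have h4 : Nat.ofDigits q (L.take l) < q ^ l := by
      have := hS _ h3
      omega
    have h5 : Nat.ofDigits q (L.drop l) ∈ blk (q ^ l) S k := by
      refine ih (L.drop l) (fun a ha => hL a (List.mem_of_mem_drop ha)) ?_ ?_ ?_
      · rw [List.length_drop]
        have e : (k + 1) * l = k * l + l := by ring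
        omega
      · intro j hjk
        have := hj (j + 1) (by omega)
        rw [List.drop_drop]
        have e : l + j * l = (j + 1) * l := by ring
        rw [e]
        exact this
      · rw [List.drop_drop]
        have e : l + k * l = (k + 1) * l := by ring
        rw [e]
        exact h0
    rw [mem_blk_succ hb hS, h2]
    rw [Nat.add_mul_mod_self_left, Nat.mod_eq_of_lt h4, Nat.add_mul_div_left _ _ hb,
      Nat.div_eq_of_lt h4, zero_add]
    exact ⟨h3, h5⟩

/-- converse -/
lemma blk_digits {q l : ℕ} (hq : 2 ≤ q) (hS : ∀ a ∈ S, 2 * a < q ^ l) :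
    ∀ (k : ℕ) (L : List ℕ), (∀ a ∈ L, a < q) → k * l ≤ L.length →
      Nat.ofDigits q L ∈ blk (q ^ l) S k →
      (∀ j < k, Nat.ofDigits q ((L.drop (j * l)).take l) ∈ S) ∧
        Nat.ofDigits q (L.drop (k * l)) = 0 := by
  have hb : 0 < q ^ l := by positivity
  intro k
  induction k with
  | zero =>
    intro L _ _ h
    refine ⟨fun j hj => absurd hj (by omega), ?_⟩
    rw [zero_mul, List.drop_zero]
    simpa [blk] using h
  | succ k ih =>
    intro L hL hlen hmem
    have h1 : (L.take l).length = l := by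
      rw [List.length_take]
      have : l ≤ (k + 1) * l := Nat.le_mul_of_pos_left _ (by omega)
      omega
    have h2 : Nat.ofDigits q L =
        Nat.ofDigits q (L.take l) + q ^ l * Nat.ofDigits q (L.drop l) := by
      conv_lhs => rw [← List.take_append_drop l L, Nat.ofDigits_append, h1]
    have h4 : Nat.ofDigits q (L.take l) < q ^ l := by
      have := Nat.ofDigits_lt_base_pow_length (b := q) (l := L.take l) (by omega)
        (fun a ha => hL a (List.mem_of_mem_take ha))
      rw [h1] at this
      exact this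
    rw [mem_blk_succ hb hS, h2, Nat.add_mul_mod_self_left, Nat.mod_eq_of_lt h4,
      Nat.add_mul_div_left _ _ hb, Nat.div_eq_of_lt h4, zero_add] at hmem
    obtain ⟨h5, h6⟩ := ih (L.drop l) (fun a ha => hL a (List.mem_of_mem_drop ha)) (by
      rw [List.length_drop]
      have e : (k + 1) * l = k * l + l := by ring
      omega) hmem.2
    refine ⟨?_, ?_⟩
    · intro j hj
      rcases Nat.eq_zero_or_pos j with h | h
      · rw [h, zero_mul, List.drop_zero]
        exact hmem.1
      · obtain ⟨j', rfl⟩ : ∃ j', j = j' + 1 := ⟨j - 1, by omega⟩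
        have := h5 j' (by omega)
        rw [List.drop_drop] at this
        have e : l + j' * l = (j' + 1) * l := by ring
        rw [e] at this
        exact this
    · rw [List.drop_drop] at h6
      have e : l + k * l = (k + 1) * l := by ring
      rw [e] at h6
      exact h6

lemma rep_coe (P : Finset ℕ) (N : ℕ) : rep (P : Set ℕ) N = rpF P N := by
  unfold rep rpF
  rw [← Set.ncard_coe_finset]
  congr 1
  ext x
  rw [mem_coe, mem_filter, mem_product]
  constructor
  · rintro ⟨h1, h2, h3⟩; exact ⟨⟨h1, h2⟩, h3⟩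
  · rintro ⟨⟨h1, h2⟩, h3⟩; exact ⟨h1, h2, h3⟩

end Pool.Agent.Helper1.TY
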