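import Pool.Agent.Helper45.TY.Result

/-!
# Sets recognised cheaply by one-tape machines
-/

set_option autoImplicit false

namespace Pool.Agent.Helper1.TY

open Filter Pool.Agent.Helper45.TY

/-- `Cheap q d n P A`: some nondeterministic one-tape machine (finite set `Q` of states, any tape
alphabet `Γ`), started at the cell `0` on the words of `n` digits in base `q` (the cell `z` with
`0 ≤ z < n` carries the digit number `π z`, and every cell may carry any further information that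
depends only on the cell), accepts only words whose value is in `A`, and accepts at least
`q ^ (d n)` words in at most `T` steps, where `n ≤ T` and `T * log (|Q| + 1) ≤ P`. -/
def Cheap (q : ℕ) (d : ℝ) (n : ℕ) (P : ℝ) (A : Set ℕ) : Prop :=
  ∃ (Q Γ : Type) (_ : Fintype Q) (M : Machine Q Γ) (T : ℕ) (enc : ℤ → Option (Fin q) → Γ)
    (π : Equiv.Perm (Fin n)),
    n ≤ T ∧ T * Real.log (Fintype.card Q + 1) ≤ P ∧
    (∀ w : Fin n → Fin q, M.Accepts (M.init enc w) → Helper45.TY.val (digitVal π) w ∈ A) ∧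
    (q : ℝ) ^ (d * n) ≤ {w : Fin n → Fin q | M.AcceptsIn T (M.init enc w)}.ncard

/-- The inequality. -/
theorem of_cheap (q : ℕ) (hq : 2 ≤ q) (d : ℝ) (hd : 0 < d) : ∃ c : ℝ, 0 < c ∧
    ∀ (n : ℕ) (P : ℝ) (A : Set ℕ), 1 ≤ n → Cheap q d n P A →
      ∃ N < 2 * q ^ n, Real.exp (c * n ^ 2 / P) ≤ rep A N := by
  obtain ⟨c, hc, h⟩ := machine_base q hq d hd
  refine ⟨c, hc, ?_⟩
  rintro n P A hn ⟨Q, Γ, _, M, T, enc, π, hT, hP, hA, hcard⟩
  obtain ⟨N, hN, hr⟩ := h Q Γ M n T enc π A hn hT hA hcard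
  refine ⟨N, hN, le_trans ?_ hr⟩
  have hQ : 0 < Fintype.card Q := Fintype.card_pos_iff.2 ⟨M.start⟩
  have hQr : (1 : ℝ) ≤ Fintype.card Q := by exact_mod_cast hQ
  have hlog : 0 < Real.log (Fintype.card Q + 1) := Real.log_pos (by linarith)
  have hTr : (1 : ℝ) ≤ T := by exact_mod_cast hn.trans hT
  have hpos : 0 < T * Real.log (Fintype.card Q + 1) := by positivity
  apply Real.exp_le_exp.2
  exact div_le_div_of_nonneg_left (by positivity) hpos hP

/-- Sets recognised in `o(n ^ 2)` have unbounded representation functions. -/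
theorem unbounded_of_cheap (q : ℕ) (hq : 2 ≤ q) (d : ℝ) (hd : 0 < d) (A : Set ℕ)
    (hA : ∀ ε : ℝ, 0 < ε → ∃ᶠ n : ℕ in atTop, Cheap q d n (ε * n ^ 2) A) (g : ℕ) :
    ∃ N, g ≤ rep A N := by
  obtain ⟨c, hc, h⟩ := of_cheap q hq d hd
  -- choose `ε` with `exp (c / ε) ≥ g`
  have hε : 0 < c / (g + 1 : ℝ) := by positivity
  obtain ⟨n, hn, hcheap⟩ := (frequently_atTop.1 (hA _ hε)) 1
  obtain ⟨N, _, hr⟩ := h n _ A hn hcheap
  refine ⟨N, ?_⟩
  have hn0 : (0 : ℝ) < n := by exact_mod_cast (by omega : 0 < n)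
  have h1 : c * (n : ℝ) ^ 2 / (c / (g + 1) * n ^ 2) = g + 1 := by
    field_simp
  rw [h1] at hr
  have h2 : (g : ℝ) + 1 + 1 ≤ Real.exp (g + 1) := Real.add_one_le_exp _
  have h3 : (g : ℝ) ≤ rep A N := by linarith
  exact_mod_cast h3

/-- The number of words with value in `A`. -/
lemma ncard_words {q n : ℕ} (A : Set ℕ) (π : Equiv.Perm (Fin n)) :
    num A (q ^ n) ≤ {w : Fin n → Fin q | Helper45.TY.val (digitVal π) w ∈ A}.ncard := by
  unfold num
  have hsub : A ∩ Set.Iio (q ^ n) ⊆ (fun w : Fin n → Fin q => Helper45.TY.val (digitVal π) w) ''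
      {w : Fin n → Fin q | Helper45.TY.val (digitVal π) w ∈ A} := by
    rintro a ⟨ha, hlt⟩
    obtain ⟨w, hw⟩ := exists_val_eq π (Set.mem_Iio.1 hlt)
    refine ⟨w, ?_, hw⟩
    change Helper45.TY.val (digitVal π) w ∈ A
    rw [hw]; exact ha
  exact (Set.ncard_le_ncard hsub (Set.toFinite _)).trans (Set.ncard_image_le (Set.toFinite _))

/-- Every set is recognised in `C n ^ 2`. -/
theorem cheap_of_gather (q : ℕ) (hq : 2 ≤ q)
    (hgather : ∀ (n : ℕ) (L : Set (Fin n → Fin q)), ∃ (Q G : Type) (_ : Fintype Q)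
      (M : Machine Q G) (enc : ℤ → Option (Fin q) → G), Fintype.card Q ≤ q + 3 ∧
      (∀ w : Fin n → Fin q, M.Accepts (M.init enc w) ↔ w ∈ L) ∧
      (∀ w ∈ L, M.AcceptsIn (n ^ 2 + 10 * n + 10) (M.init enc w))) :
    ∃ C : ℝ, 0 < C ∧ ∀ (d : ℝ) (n : ℕ) (A : Set ℕ), 1 ≤ n →
      (q : ℝ) ^ (d * n) ≤ num A (q ^ n) → Cheap q d n (C * n ^ 2) A := by
  have hlog : 0 < Real.log ((q : ℝ) + 4) := Real.log_pos (by
    have : (0 : ℝ) ≤ q := Nat.cast_nonneg q
    linarith)
  refine ⟨21 * Real.log ((q : ℝ) + 4), by positivity, ?_⟩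
  intro d n A hn hA
  obtain ⟨Q, G, _, M, enc, hQ, hacc, hin⟩ :=
    hgather n {w : Fin n → Fin q | Helper45.TY.val (digitVal (Equiv.refl (Fin n))) w ∈ A}
  refine ⟨Q, G, inferInstance, M, n ^ 2 + 10 * n + 10, enc, Equiv.refl _, ?_, ?_, ?_, ?_⟩
  · nlinarith
  · have hQ0 : 0 < Fintype.card Q := Fintype.card_pos_iff.2 ⟨M.start⟩
    have hQr : (Fintype.card Q : ℝ) ≤ q + 3 := by exact_mod_cast hQ
    have h1 : Real.log (Fintype.card Q + 1) ≤ Real.log ((q : ℝ) + 4) :=
      Real.log_le_log (by positivity) (by linarith)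
    have hnr : (1 : ℝ) ≤ n := by exact_mod_cast hn
    have h2 : ((n ^ 2 + 10 * n + 10 : ℕ) : ℝ) ≤ 21 * n ^ 2 := by
      push_cast
      nlinarith
    calc ((n ^ 2 + 10 * n + 10 : ℕ) : ℝ) * Real.log (Fintype.card Q + 1)
        ≤ (21 * n ^ 2) * Real.log ((q : ℝ) + 4) := by
          refine mul_le_mul h2 h1 (Real.log_nonneg ?_) (by positivity)
          have : (0 : ℝ) ≤ Fintype.card Q := Nat.cast_nonneg _
          linarith
      _ = 21 * Real.log ((q : ℝ) + 4) * n ^ 2 := by ring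
  · intro w hw
    exact (hacc w).1 hw
  · refine hA.trans ?_
    have h1 := ncard_words (q := q) (n := n) A (Equiv.refl _)
    have h2 : {w : Fin n → Fin q | Helper45.TY.val (digitVal (Equiv.refl (Fin n))) w ∈ A}.ncard ≤
        {w : Fin n → Fin q | M.AcceptsIn (n ^ 2 + 10 * n + 10) (M.init enc w)}.ncard := by
      refine Set.ncard_le_ncard ?_ (Set.toFinite _)
      intro w hw
      exact hin w hw
    exact_mod_cast h1.trans h2

end Pool.Agent.Helper1.TY
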