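import Mathlib

/-!
# Minimal linear codes of positive rate
-/

set_option autoImplicit false

namespace Pool.Agent.Helper1.TY

open Finset

/-- The inner product of two 0-1 words. -/
def ip {n : ℕ} (h c : Fin n → Bool) : ZMod 2 := ∑ i, if h i && c i then 1 else 0

/-- The code with the parity checks `H`. -/
def code {m n : ℕ} (H : Fin m → Fin n → Bool) : Finset (Fin n → Bool) :=
  {c | ∀ k, Even (#{i | (H k i && c i) = true})}

lemma ip_eq {n : ℕ} (h c : Fin n → Bool) :
    ip h c = ((#{i | (h i && c i) = true} : ℕ) : ZMod 2) := by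
  unfold ip
  rw [card_filter]
  push_cast
  exact sum_congr rfl fun i _ => by split_ifs <;> simp_all

lemma mem_code {m n : ℕ} {H : Fin m → Fin n → Bool} {c : Fin n → Bool} :
    c ∈ code H ↔ ∀ k, ip (H k) c = 0 := by
  unfold code
  rw [mem_filter]
  simp only [mem_univ, true_and]
  refine forall_congr' fun k => ?_
  rw [ip_eq, ZMod.natCast_eq_zero_iff_even]

/-- Two different nonzero words: a quarter of the words is orthogonal to both. -/
lemma card_orth {n : ℕ} {u e : Fin n → Bool} (hu : ∃ i, u i = true) (hue : ∃ i, u i ≠ e i)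
    (hsub : ∀ i, u i = true → e i = true) :
    4 * #{h : Fin n → Bool | ip h u = 0 ∧ ip h e = 0} ≤ 2 ^ n := by
  classical
  obtain ⟨a, ha⟩ := hu
  obtain ⟨b, hb⟩ := hue
  have hb1 : u b = false ∧ e b = true := by
    cases hub : u b with
    | false =>
      cases heb : e b with
      | false => rw [hub, heb] at hb; exact absurd rfl hb
      | true => exact ⟨rfl, rfl⟩
    | true =>
      have := hsub b hub
      rw [hub, this] at hb
      exact absurd rfl hb
  have hab : a ≠ b := by
    rintro rfl
    rw [ha] at hb1
    exact absurd hb1.1 (by simp)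
  have hea := hsub a ha
  -- flipping the letters at `a` and `b`
  set fl : (Fin n → Bool) → Bool × Bool → (Fin n → Bool) := fun h x =>
    Function.update (Function.update h a (xor (h a) x.1)) b (xor (h b) x.2) with hfl
  have hip : ∀ h x (c : Fin n → Bool), ip (fl h x) c = ip h c +
      (if x.1 && c a then 1 else 0) + (if x.2 && c b then 1 else 0) := by
    intro h x c
    unfold ip
    have h1 : ∀ i, (if fl h x i && c i then (1 : ZMod 2) else 0) =
        (if h i && c i then (1 : ZMod 2) else 0) +
        (if i = a then (if x.1 && c a then (1 : ZMod 2) else 0) else 0) +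
        (if i = b then (if x.2 && c b then (1 : ZMod 2) else 0) else 0) := by
      intro i
      by_cases hia : i = a
      · subst hia
        have h2 : fl h x i = xor (h i) x.1 := by
          simp only [hfl]
          rw [Function.update_of_ne hab, Function.update_self]
        rw [h2]
        simp only [if_true, hab, if_false, add_zero]
        (cases h i <;> cases x.1 <;> cases c i <;> simp) <;> decide
      · by_cases hib : i = b
        · subst hib
          have h2 : fl h x i = xor (h i) x.2 := by
            simp only [hfl]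
            rw [Function.update_self]
          rw [h2]
          simp only [if_true, hia, if_false, add_zero]
          cases h i <;> cases x.2 <;> cases c i <;> simp <;> decide
        · have h2 : fl h x i = h i := by
            simp only [hfl]
            rw [Function.update_of_ne hib, Function.update_of_ne hia]
          rw [h2]
          simp only [hia, hib, if_false, add_zero]
    rw [sum_congr rfl fun i _ => h1 i, sum_add_distrib, sum_add_distrib]
    simp
  have hinj : Set.InjOn (fun p : (Fin n → Bool) × (Bool × Bool) => fl p.1 p.2)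
      (((({h : Fin n → Bool | ip h u = 0 ∧ ip h e = 0} : Finset (Fin n → Bool)) ×ˢ univ :
        Finset ((Fin n → Bool) × (Bool × Bool)))) : Set ((Fin n → Bool) × (Bool × Bool))) := by
    rintro ⟨h, x⟩ hx ⟨h', x'⟩ hx' heq
    rw [mem_coe, mem_product, mem_filter] at hx hx'
    obtain ⟨⟨_, hu0, he0⟩, _⟩ := hx
    obtain ⟨⟨_, hu0', he0'⟩, _⟩ := hx'
    simp only at heq hu0 he0 hu0' he0'
    have e1 := hip h x u
    have e2 := hip h' x' u
    have e3 := hip h x e
    have e4 := hip h' x' e
    rw [heq, e2, hu0, hu0', ha, hb1.1] at e1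
    rw [heq, e4, he0, he0', hea, hb1.2] at e3
    obtain ⟨x1, x2⟩ := x
    obtain ⟨y1, y2⟩ := x'
    simp only [Bool.and_true, Bool.and_false, if_false, add_zero, zero_add,
      Bool.false_eq_true] at e1 e3
    have hx1 : x1 = y1 := by
      cases x1 <;> cases y1 <;> simp at e1 ⊢
    subst hx1
    have hx2 : x2 = y2 := by
      cases x1 <;> cases x2 <;> cases y2 <;> simp at e3 ⊢
    subst hx2
    refine Prod.ext ?_ rfl
    funext i
    have h5 := congrFun heq i
    simp only [hfl] at h5
    by_cases hib : i = b
    · subst hib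
      rw [Function.update_self, Function.update_self] at h5
      simpa using h5
    · rw [Function.update_of_ne hib, Function.update_of_ne hib] at h5
      by_cases hia : i = a
      · subst hia
        rw [Function.update_self, Function.update_self] at h5
        simpa using h5
      · rw [Function.update_of_ne hia, Function.update_of_ne hia] at h5
        exact h5
  have h6 := card_le_card_of_injOn (t := (univ : Finset (Fin n → Bool)))
    (fun p : (Fin n → Bool) × (Bool × Bool) => fl p.1 p.2) (fun _ _ => mem_coe.2 (mem_univ _))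
    hinj
  rw [card_product, card_univ, card_univ, Fintype.card_prod, Fintype.card_bool,
    Fintype.card_fun, Fintype.card_bool, Fintype.card_fin] at h6
  omega

lemma ip_xor {n : ℕ} (h c d : Fin n → Bool) :
    ip h (fun i => xor (c i) (d i)) = ip h c + ip h d := by
  unfold ip
  rw [← sum_add_distrib]
  have key : ∀ a b c : Bool, (if (a && xor b c) = true then (1 : ZMod 2) else 0) =
      (if (a && b) = true then (1 : ZMod 2) else 0) +
        (if (a && c) = true then (1 : ZMod 2) else 0) := by decide
  exact sum_congr rfl fun i _ => key _ _ _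

lemma card_code {m n : ℕ} (H : Fin m → Fin n → Bool) : 2 ^ n ≤ #(code H) * 2 ^ m := by
  classical
  -- the syndrome
  set φ : (Fin n → Bool) → (Fin m → ZMod 2) := fun c k => ip (H k) c with hφ
  obtain ⟨y, _, hy⟩ := exists_max_image (univ : Finset (Fin m → ZMod 2))
    (fun y => #{c : Fin n → Bool | φ c = y}) univ_nonempty
  have h1 : 2 ^ n ≤ 2 ^ m * #{c : Fin n → Bool | φ c = y} := by
    have h2 := card_eq_sum_card_fiberwise (s := (univ : Finset (Fin n → Bool)))
      (t := (univ : Finset (Fin m → ZMod 2))) (f := φ) (fun _ _ => mem_coe.2 (mem_univ _))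
    rw [card_univ, Fintype.card_fun, Fintype.card_bool, Fintype.card_fin] at h2
    rw [h2]
    refine (sum_le_sum fun z hz => hy z hz).trans ?_
    rw [sum_const, card_univ, Fintype.card_fun, ZMod.card, Fintype.card_fin, smul_eq_mul]
  refine h1.trans ?_
  rw [mul_comm]
  refine Nat.mul_le_mul_right _ ?_
  rcases ({c : Fin n → Bool | φ c = y} : Finset (Fin n → Bool)).eq_empty_or_nonempty with h | h
  · rw [h]; simp
  · obtain ⟨c₀, hc₀⟩ := h
    rw [mem_filter] at hc₀
    refine card_le_card_of_injOn (fun c i => xor (c i) (c₀ i)) ?_ ?_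
    · intro c hc
      rw [mem_coe, mem_filter] at hc
      rw [mem_coe, mem_code]
      intro k
      rw [ip_xor]
      have e1 : ip (H k) c = y k := congrFun hc.2 k
      have e2 : ip (H k) c₀ = y k := congrFun hc₀.2 k
      rw [e1, e2]
      generalize y k = t
      revert t
      decide
    · intro c _ d _ h
      funext i
      have := congrFun h i
      simpa using this

/-- Three values. -/
def tri (a b : Bool) : Fin 3 := if a then 2 else if b then 1 else 0

lemma card_pairs (n : ℕ) : #{p : (Fin n → Bool) × (Fin n → Bool) |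
    ∀ i, p.1 i = true → p.2 i = true} ≤ 3 ^ n := by
  classical
  have h : #(univ : Finset (Fin n → Fin 3)) = 3 ^ n := by
    rw [card_univ, Fintype.card_fun, Fintype.card_fin, Fintype.card_fin]
  rw [← h]
  have all : ∀ a b c d : Bool, tri a b = tri c d → (a = true → b = true) → (c = true → d = true) →
      a = c ∧ b = d := by decide
  refine card_le_card_of_injOn (fun p i => tri (p.1 i) (p.2 i))
    (fun _ _ => mem_coe.2 (mem_univ _)) ?_
  rintro ⟨u, e⟩ hp ⟨u', e'⟩ hp' heq
  rw [mem_coe, mem_filter] at hp hp'
  have h1 := hp.2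
  have h2 := hp'.2
  simp only at h1 h2 heq
  have key : ∀ i, u i = u' i ∧ e i = e' i := by
    intro i
    exact all _ _ _ _ (congrFun heq i) (h1 i) (h2 i)
  refine Prod.ext ?_ ?_
  · funext i; exact (key i).1
  · funext i; exact (key i).2

/-- **Minimal codes.** -/
theorem exists_code (n : ℕ) (hn : 1 ≤ n) : ∃ H : Fin (n - n / 5) → Fin n → Bool,
    2 ^ (n / 5) ≤ #(code H) ∧ ∀ c ∈ code H, ∀ e ∈ code H, (∀ i, c i = true → e i = true) →
      c = (fun _ => false) ∨ c = e := by
  classical
  set m := n - n / 5 with hm
  have h34 : 3 ^ n < 4 ^ m := by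
    have h1 : 4 * n ≤ 5 * m := by omega
    have h2 : (3 ^ n) ^ 5 < (4 ^ m) ^ 5 := by
      calc (3 ^ n) ^ 5 = 243 ^ n := by rw [← pow_mul, mul_comm, pow_mul]; norm_num
        _ < 256 ^ n := Nat.pow_lt_pow_left (by norm_num) (by omega)
        _ = 4 ^ (4 * n) := by rw [pow_mul]; norm_num
        _ ≤ 4 ^ (5 * m) := Nat.pow_le_pow_right (by norm_num) h1
        _ = (4 ^ m) ^ 5 := by rw [← pow_mul, mul_comm]
    exact lt_of_pow_lt_pow_left₀ 5 (by positivity) h2
  by_contra hcon
  push Not at hcon
  -- the bad pairs
  set P : Finset ((Fin n → Bool) × (Fin n → Bool)) := {p | (∀ i, p.1 i = true → p.2 i = true) ∧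
    (∃ i, p.1 i = true) ∧ ∃ i, p.1 i ≠ p.2 i} with hP
  have hPcard : #P ≤ 3 ^ n := by
    refine le_trans (card_le_card ?_) (card_pairs n)
    intro p hp
    rw [hP, mem_filter] at hp
    rw [mem_filter]
    exact ⟨mem_univ _, hp.2.1⟩
  have hcover : (univ : Finset (Fin m → Fin n → Bool)) ⊆ P.biUnion fun p =>
      Fintype.piFinset fun _ : Fin m => {h : Fin n → Bool | ip h p.1 = 0 ∧ ip h p.2 = 0} := by
    intro H _
    have hsize : 2 ^ (n / 5) ≤ #(code H) := by
      have h1 := card_code H
      have h2 : 2 ^ n = 2 ^ (n / 5) * 2 ^ m := by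
        rw [← pow_add]
        congr 1
        omega
      rw [h2] at h1
      exact Nat.le_of_mul_le_mul_right h1 (by positivity)
    obtain ⟨c, hc, e, he, hsub, hc0, hce⟩ := hcon H hsize
    rw [mem_biUnion]
    refine ⟨(c, e), ?_, ?_⟩
    · rw [hP, mem_filter]
      refine ⟨mem_univ _, hsub, ?_, ?_⟩
      · by_contra h
        push Not at h
        exact hc0 (funext fun i => by simpa using h i)
      · by_contra h
        push Not at h
        exact hce (funext h)
    · rw [Fintype.mem_piFinset]
      intro k
      rw [mem_filter]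
      exact ⟨mem_univ _, mem_code.1 hc k, mem_code.1 he k⟩
  have hcard := (card_le_card hcover).trans card_biUnion_le
  rw [card_univ, Fintype.card_fun, Fintype.card_fun, Fintype.card_bool, Fintype.card_fin,
    Fintype.card_fin] at hcard
  have hterm : ∀ p ∈ P, 4 ^ m * #(Fintype.piFinset fun _ : Fin m =>
      {h : Fin n → Bool | ip h p.1 = 0 ∧ ip h p.2 = 0}) ≤ (2 ^ n) ^ m := by
    intro p hp
    rw [hP, mem_filter] at hp
    obtain ⟨_, h1, h2, h3⟩ := hp
    rw [Fintype.card_piFinset, prod_const, card_univ, Fintype.card_fin, ← mul_pow]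
    exact Nat.pow_le_pow_left (card_orth h2 h3 h1) m
  have hfinal : 4 ^ m * (2 ^ n) ^ m ≤ 3 ^ n * (2 ^ n) ^ m := by
    calc 4 ^ m * (2 ^ n) ^ m ≤ 4 ^ m * ∑ p ∈ P, #(Fintype.piFinset fun _ : Fin m =>
          {h : Fin n → Bool | ip h p.1 = 0 ∧ ip h p.2 = 0}) := Nat.mul_le_mul_left _ hcard
      _ = ∑ p ∈ P, 4 ^ m * #(Fintype.piFinset fun _ : Fin m =>
          {h : Fin n → Bool | ip h p.1 = 0 ∧ ip h p.2 = 0}) := by rw [mul_sum]
      _ ≤ ∑ _p ∈ P, (2 ^ n) ^ m := sum_le_sum hterm
      _ = #P * (2 ^ n) ^ m := by rw [sum_const, smul_eq_mul]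
      _ ≤ 3 ^ n * (2 ^ n) ^ m := Nat.mul_le_mul_right _ hPcard
  have := Nat.le_of_mul_le_mul_right hfinal (by positivity)
  omega

end Pool.Agent.Helper1.TY
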