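import Pool.Agent.Helper1.TY.Blk

/-!
# The inequality is sharp for every cost
-/

set_option autoImplicit false

namespace Pool.Agent.Helper1.TY

open Finset Pool.Agent.Helper45.TY

/-- A machine with few states which checks the blocks of length `l` of a word one by one. -/
def GatherBlocks (r C₀ : ℕ) : Prop := ∀ (n l : ℕ), 1 ≤ l → ∀ (L : ℕ → Set (List (Fin r))),
  ∃ (Q G : Type) (_ : Fintype Q) (M : Machine Q G) (enc : ℤ → Option (Fin r) → G),
    Fintype.card Q ≤ C₀ ∧
    (∀ w : Fin n → Fin r, M.Accepts (M.init enc w) ↔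
      ∀ b, b * l < n → ((List.ofFn w).drop (b * l)).take l ∈ L b) ∧
    ∀ w : Fin n → Fin r, (∀ b, b * l < n → ((List.ofFn w).drop (b * l)).take l ∈ L b) →
      M.AcceptsIn (C₀ * (n * l + n + 1)) (M.init enc w)

lemma ofDigits_ofFn (q : ℕ) : ∀ (n : ℕ) (f : Fin n → ℕ),
    Nat.ofDigits q (List.ofFn f) = ∑ i, f i * q ^ i.1 := by
  intro n
  induction n with
  | zero => intro f; simp
  | succ n ih =>
    intro f
    rw [List.ofFn_succ, Nat.ofDigits_cons, ih, Fin.sum_univ_succ, mul_sum]
    congr 1
    · simp
    · refine sum_congr rfl fun i _ => ?_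
      rw [Fin.val_succ, pow_succ]
      ring

/-- the digit of the track `κ` -/
def dg {q t : ℕ} (κ : Fin t) (a : Fin (q ^ t)) : ℕ := (finFunctionFinEquiv.symm a κ : Fin q).1

lemma val_track {n q t : ℕ} (κ : Fin t) (w : Fin n → Fin (q ^ t)) :
    Helper45.TY.val (digitVal (Equiv.refl (Fin n))) (track κ w) =
      Nat.ofDigits q ((List.ofFn w).map (dg κ)) := by
  rw [List.map_ofFn, ofDigits_ofFn]
  rfl

lemma ofDigits_zero_of {q : ℕ} : ∀ L : List ℕ, (∀ a ∈ L, a = 0) → Nat.ofDigits q L = 0 := by
  intro L
  induction L with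
  | nil => intro _; rfl
  | cons a L ih =>
    intro h
    rw [Nat.ofDigits_cons, h a (by simp), ih (fun b hb => h b (by simp [hb]))]
    simp

/-- number of tuples -/
lemma pow_num_le {n q t : ℕ} (A : Set ℕ) (π : Equiv.Perm (Fin n)) : (num A (q ^ n)) ^ t ≤
    {x : Fin t → Fin n → Fin q | ∀ κ, Helper45.TY.val (digitVal π) (x κ) ∈ A}.ncard := by
  classical
  set U : Finset (Fin n → Fin q) :=
    Finset.univ.filter fun w => Helper45.TY.val (digitVal π) w ∈ A with hU
  have h2 : num A (q ^ n) ≤ U.card := by
    unfold num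
    rw [← Set.ncard_coe_finset]
    have hsub : A ∩ Set.Iio (q ^ n) ⊆
        (fun w : Fin n → Fin q => Helper45.TY.val (digitVal π) w) '' (U : Set _) := by
      rintro a ⟨ha, hlt⟩
      obtain ⟨w, hw⟩ := exists_val_eq π (Set.mem_Iio.1 hlt)
      refine ⟨w, ?_, hw⟩
      rw [Finset.mem_coe, hU, Finset.mem_filter]
      refine ⟨Finset.mem_univ _, ?_⟩
      rw [hw]; exact ha
    exact (Set.ncard_le_ncard hsub (Set.toFinite _)).trans
      (Set.ncard_image_le (Set.toFinite _))
  calc (num A (q ^ n)) ^ t ≤ U.card ^ t := Nat.pow_le_pow_left h2 t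
    _ = (Fintype.piFinset fun _ : Fin t => U).card := by
        rw [Fintype.card_piFinset, Finset.prod_const, Finset.card_univ, Fintype.card_fin]
    _ ≤ _ := by
        rw [← Set.ncard_coe_finset]
        refine Set.ncard_le_ncard ?_ (Set.toFinite _)
        intro x hx κ
        rw [Finset.mem_coe, Fintype.mem_piFinset] at hx
        exact (Finset.mem_filter.1 (hx κ)).2

/-- Cost from a machine over the alphabet of the tuples. -/
lemma cost_of_machine {q t n T : ℕ} {d P : ℝ} {A : Set ℕ} {Q G : Type} [Fintype Q]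
    (M : Machine Q G) (enc : ℤ → Option (Fin (q ^ t)) → G) (hT : n ≤ T)
    (hP : T * Real.log (Fintype.card Q + 1) ≤ P)
    (hacc : ∀ w : Fin n → Fin (q ^ t), M.Accepts (M.init enc w) →
      ∀ κ : Fin t, Helper45.TY.val (digitVal (Equiv.refl (Fin n))) (track κ w) ∈ A)
    (hin : ∀ w : Fin n → Fin (q ^ t),
      (∀ κ : Fin t, Helper45.TY.val (digitVal (Equiv.refl (Fin n))) (track κ w) ∈ A) →
      M.AcceptsIn T (M.init enc w))
    (hA : (q : ℝ) ^ (d * n) ≤ (num A (q ^ n) : ℝ) ^ t) : Cost q t d n A P := by
  set e : ℤ → Option (Fin t → Fin q) → G := fun z o => enc z (o.map finFunctionFinEquiv)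
    with he
  have hinit : ∀ x : Fin t → Fin n → Fin q, initial M e x = M.init enc (merge x) := by
    intro x
    unfold Machine.init initial
    congr 1
    funext z
    unfold inputTape tape
    by_cases h : 0 ≤ z ∧ z < n
    · rw [dif_pos h, dif_pos h]
      simp only [he, Option.map_some]
      rfl
    · rw [dif_neg h, dif_neg h]
      simp only [he, Option.map_none]
  refine ⟨Q, G, inferInstance, M, T, e, Equiv.refl _, hT, hP, ?_, ?_⟩
  · intro x hx k
    rw [hinit] at hx
    have h1 := hacc _ hx k
    rw [track_merge] at h1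
    exact h1
  · refine hA.trans ?_
    have h1 := pow_num_le (q := q) (t := t) (n := n) A (Equiv.refl (Fin n))
    have h2 : {x : Fin t → Fin n → Fin q |
        ∀ κ, Helper45.TY.val (digitVal (Equiv.refl (Fin n))) (x κ) ∈ A}.ncard ≤
        {x : Fin t → Fin n → Fin q | M.AcceptsIn T (initial M e x)}.ncard := by
      refine Set.ncard_le_ncard ?_ (Set.toFinite _)
      intro x hx
      change M.AcceptsIn _ (initial M e x)
      rw [hinit]
      refine hin _ fun k => ?_
      rw [track_merge]
      exact hx k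
    exact_mod_cast h1.trans h2

/-- The block sums have cost `O(n l)`. -/
lemma cost_blk {q t C₀ : ℕ} (hq : 2 ≤ q) (hG : GatherBlocks (q ^ t) C₀) (hC₀ : 1 ≤ C₀)
    {n l k : ℕ} (hl : 1 ≤ l) (hk : k * l ≤ n) {S : Finset ℕ} (hS : ∀ a ∈ S, 2 * a < q ^ l)
    {d : ℝ} (hcard : (q : ℝ) ^ (d * n) ≤ ((S.card : ℝ) ^ k) ^ t) :
    Cost q t d n (blk (q ^ l) S k : Set ℕ)
      ((C₀ * (n * l + n + 1) : ℕ) * Real.log ((C₀ : ℝ) + 1)) := by
  have hb : 0 < q ^ l := by positivity
  obtain ⟨Q, G, _, M, enc, hQ, hacc, hin⟩ := hG n l hl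
    (fun b => {lst | ∀ κ : Fin t, (b < k → Nat.ofDigits q (lst.map (dg κ)) ∈ S) ∧
      (k ≤ b → ∀ a ∈ lst.map (dg κ), a = 0)})
  -- the condition on the blocks says that all values are in the set
  have hlt : ∀ (κ : Fin t) (w : Fin n → Fin (q ^ t)), ∀ a ∈ (List.ofFn w).map (dg κ), a < q := by
    intro κ w a ha
    obtain ⟨b, _, rfl⟩ := List.mem_map.1 ha
    exact (finFunctionFinEquiv.symm b κ : Fin q).2
  have hlen : ∀ (κ : Fin t) (w : Fin n → Fin (q ^ t)),
      ((List.ofFn w).map (dg κ)).length = n := by
    intro κ w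
    rw [List.length_map, List.length_ofFn]
  have hiff : ∀ w : Fin n → Fin (q ^ t), (∀ b, b * l < n →
      ((List.ofFn w).drop (b * l)).take l ∈ {lst : List (Fin (q ^ t)) | ∀ κ : Fin t,
        (b < k → Nat.ofDigits q (lst.map (dg κ)) ∈ S) ∧
        (k ≤ b → ∀ a ∈ lst.map (dg κ), a = 0)}) ↔
      ∀ κ : Fin t, Helper45.TY.val (digitVal (Equiv.refl (Fin n))) (track κ w) ∈
        (blk (q ^ l) S k : Set ℕ) := by
    intro w
    constructor
    · intro h κ
      rw [mem_coe, val_track]
      refine ofDigits_mem_blk hq hS k _ (hlt κ w) (by rw [hlen]; exact hk) ?_ ?_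
      · intro j hj
        have h1 : j * l < n := by
          have : (j + 1) * l ≤ k * l := Nat.mul_le_mul_right _ hj
          have e : (j + 1) * l = j * l + l := by ring
          omega
        have h2 := ((h j h1) κ).1 hj
        rw [List.map_take, List.map_drop] at h2
        exact h2
      · refine ofDigits_zero_of _ ?_
        intro a ha
        obtain ⟨i, hi, rfl⟩ := List.mem_iff_getElem.1 ha
        rw [List.length_drop, hlen] at hi
        have h3 : k * l + i < n := by omega
        set b := (k * l + i) / l with hbdef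
        have h4 : k ≤ b := by
          rw [hbdef, Nat.le_div_iff_mul_le (by omega)]
          omega
        have h5 : b * l ≤ k * l + i := Nat.div_mul_le_self _ _
        have h6 : k * l + i < b * l + l := by
          have := Nat.lt_div_mul_add (a := k * l + i) (b := l) (by omega)
          exact this
        have h7 := ((h b (by omega)) κ).2 h4
        rw [List.map_take, List.map_drop] at h7
        refine h7 _ ?_
        rw [List.mem_iff_getElem]
        refine ⟨k * l + i - b * l, ?_, ?_⟩
        · rw [List.length_take, List.length_drop, hlen]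
          omega
        · rw [List.getElem_take, List.getElem_drop, List.getElem_drop]
          congr 1
          omega
    · intro h b hbn κ
      have h0 := h κ
      rw [mem_coe, val_track] at h0
      obtain ⟨h1, h2⟩ := blk_digits hq hS k _ (hlt κ w) (by rw [hlen]; exact hk) h0
      refine ⟨?_, ?_⟩
      · intro hbk
        rw [List.map_take, List.map_drop]
        exact h1 b hbk
      · intro hkb a ha
        rw [List.map_take, List.map_drop] at ha
        have h3 := Nat.digits_zero_of_eq_zero (b := q) (by omega) h2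
        refine h3 a ?_
        have h4 := List.mem_of_mem_take ha
        have h5 : k * l ≤ b * l := Nat.mul_le_mul_right _ hkb
        have h6 : ((List.ofFn w).map (dg κ)).drop (b * l) =
            (((List.ofFn w).map (dg κ)).drop (k * l)).drop (b * l - k * l) := by
          rw [List.drop_drop]
          congr 1
          omega
        rw [h6] at h4
        exact List.mem_of_mem_drop h4
  refine cost_of_machine M enc (T := C₀ * (n * l + n + 1)) ?_ ?_ ?_ ?_ ?_
  · calc n ≤ 1 * (n * l + n + 1) := by omega
      _ ≤ C₀ * (n * l + n + 1) := Nat.mul_le_mul_right _ hC₀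
  · have hQ0 : 0 < Fintype.card Q := Fintype.card_pos_iff.2 ⟨M.start⟩
    have hQr : (Fintype.card Q : ℝ) ≤ C₀ := by exact_mod_cast hQ
    refine mul_le_mul_of_nonneg_left ?_ (Nat.cast_nonneg _)
    exact Real.log_le_log (by positivity) (by linarith)
  · intro w hw
    exact (hiff w).1 ((hacc w).1 hw)
  · intro w hw
    exact hin w ((hiff w).2 hw)
  · refine hcard.trans ?_
    have h1 : num (blk (q ^ l) S k : Set ℕ) (q ^ n) = S.card ^ k := by
      unfold num
      rw [← card_blk hb hS k, ← Set.ncard_coe_finset]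
      congr 1
      ext x
      constructor
      · rintro ⟨h, _⟩; exact h
      · intro h
        refine ⟨h, ?_⟩
        have h2 := blk_lt hb hS k x (mem_coe.1 h)
        rw [← pow_mul] at h2
        refine lt_of_lt_of_le h2 (Nat.pow_le_pow_right (by omega) ?_)
        rw [mul_comm]; exact hk
    rw [h1]
    push_cast
    exact le_rfl

end Pool.Agent.Helper1.TY
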