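import Pool.Agent.Helper1.TY.Tracks

/-!
# Time and space needed to recognise elements or representations (MP_12a1af)
-/

set_option autoImplicit false

namespace Pool.Agent.Helper1.TY

open Filter Pool.Agent.Helper45.TY

theorem main (q t : ℕ) (d : ℝ) (hq : 2 ≤ q) (ht : 1 ≤ t) (hd : 0 < d) :
    (∃ c C : ℝ, 0 < c ∧ 0 < C ∧ ∀ (n : ℕ) (A : Set ℕ), 1 ≤ n →
      (∀ P : ℝ, Cost q t d n A P → ∃ N < 2 * q ^ n, Real.exp (c * n ^ 2 / P) ≤ rep A N) ∧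
      ((q : ℝ) ^ (d * n) ≤ (num A (q ^ n) : ℝ) ^ t → Cost q t d n A (C * n ^ 2))) ∧
    ∀ A : Set ℕ, (∀ ε : ℝ, 0 < ε → ∃ᶠ n : ℕ in atTop, Cost q t d n A (ε * n ^ 2)) →
      ∀ g : ℕ, ∃ N, g ≤ rep A N := by
  obtain ⟨c, hc, h1⟩ := of_cost q t hq ht d hd
  obtain ⟨C, hC, h2⟩ := cost_le q t
  exact ⟨⟨c, C, hc, hC, fun n A hn => ⟨fun P hP => h1 n A P hn hP, fun hA => h2 d n A hn hA⟩⟩,
    fun A hA g => unbounded q t hq ht d hd A hA g⟩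

end Pool.Agent.Helper1.TY
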