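import Mathlib

/-!
# Self-similar families of finite sets (theorem G of helper45)

If every set of a level is a disjoint union of at most `Q` translates of the `s` sets of the level
below, then a large set of a high level has a sum with many representations.
-/

namespace Pool.Agent.Helper1.TY

open Finset

/-- `P` is a disjoint union of at most `Q` translates of the sets `F p`, `p < s`. -/
def Tiled (s Q : ℕ) (F : ℕ → Finset ℕ) (P : Finset ℕ) : Prop :=
  ∃ D : Finset (ℕ × ℕ), D.card ≤ Q ∧ (∀ q ∈ D, q.2 < s) ∧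
    (∀ q ∈ D, ∀ q' ∈ D, q ≠ q' →
      Disjoint ((F q.2).image (q.1 + ·)) ((F q'.2).image (q'.1 + ·))) ∧
    P = D.biUnion fun q => (F q.2).image (q.1 + ·)

/-- Levels `0, .., n`; every set of a level is a disjoint union of at most `Q` translates of the
`s` sets of the level below; the sets of level zero have at most one element. -/
def SelfSimilar (s Q n : ℕ) (F : ℕ → ℕ → Finset ℕ) : Prop :=
  (∀ p < s, (F 0 p).card ≤ 1) ∧ ∀ i < n, ∀ p < s, Tiled s Q (F i) (F (i + 1) p)

/-- The number of ordered representations of `N` as a sum of two elements of `P`. -/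
def rpF (P : Finset ℕ) (N : ℕ) : ℕ := ((P ×ˢ P).filter fun q => q.1 + q.2 = N).card

lemma rpF_one {P C : Finset ℕ} {t N : ℕ} (h : C.image (t + ·) ⊆ P) :
    rpF C N ≤ rpF P (N + (t + t)) := by
  unfold rpF
  refine card_le_card_of_injOn (fun p => (t + p.1, t + p.2)) ?_ ?_
  · rintro ⟨x, y⟩ hxy
    rw [mem_coe, mem_filter, mem_product] at hxy ⊢
    obtain ⟨⟨hx, hy⟩, h1⟩ := hxy
    simp only at h1
    exact ⟨⟨h (mem_image_of_mem _ hx), h (mem_image_of_mem _ hy)⟩, by simp only; omega⟩
  · rintro ⟨x, y⟩ _ ⟨x', y'⟩ _ h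
    simp only [Prod.mk.injEq] at h ⊢
    omega

lemma rpF_two {P C : Finset ℕ} {t u N : ℕ} (h1 : C.image (t + ·) ⊆ P) (h2 : C.image (u + ·) ⊆ P)
    (hd : Disjoint (C.image (t + ·)) (C.image (u + ·))) :
    2 * rpF C N ≤ rpF P (N + (t + u)) := by
  unfold rpF
  set S := (C ×ˢ C).filter fun q : ℕ × ℕ => q.1 + q.2 = N with hS
  have hu : (S.image fun p => (t + p.1, u + p.2)) ∪ (S.image fun p => (u + p.1, t + p.2)) ⊆
      (P ×ˢ P).filter fun q : ℕ × ℕ => q.1 + q.2 = N + (t + u) := by
    intro p hp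
    rw [mem_union, mem_image, mem_image] at hp
    rcases hp with ⟨⟨x, y⟩, hq, rfl⟩ | ⟨⟨x, y⟩, hq, rfl⟩
    · rw [hS, mem_filter, mem_product] at hq
      obtain ⟨⟨hx, hy⟩, h5⟩ := hq
      simp only at h5
      rw [mem_filter, mem_product]
      exact ⟨⟨h1 (mem_image_of_mem _ hx), h2 (mem_image_of_mem _ hy)⟩, by simp only; omega⟩
    · rw [hS, mem_filter, mem_product] at hq
      obtain ⟨⟨hx, hy⟩, h5⟩ := hq
      simp only at h5
      rw [mem_filter, mem_product]
      exact ⟨⟨h2 (mem_image_of_mem _ hx), h1 (mem_image_of_mem _ hy)⟩, by simp only; omega⟩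
  refine le_trans ?_ (card_le_card hu)
  rw [card_union_of_disjoint]
  · rw [card_image_of_injective, card_image_of_injective]
    · omega
    · rintro ⟨x, y⟩ ⟨x', y'⟩ h
      simp only [Prod.mk.injEq] at h ⊢
      omega
    · rintro ⟨x, y⟩ ⟨x', y'⟩ h
      simp only [Prod.mk.injEq] at h ⊢
      omega
  · rw [Finset.disjoint_left] at hd ⊢
    intro p hp1 hp2
    rw [mem_image] at hp1 hp2
    obtain ⟨⟨x, y⟩, hq, rfl⟩ := hp1
    obtain ⟨⟨x', y'⟩, hq', h3⟩ := hp2
    rw [hS, mem_filter, mem_product] at hq hq'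
    simp only [Prod.mk.injEq] at h3
    refine hd (mem_image_of_mem _ hq.1.1) ?_
    rw [← h3.1]
    exact mem_image_of_mem _ hq'.1.1

lemma rpF_empty_or {P : Finset ℕ} (h : 2 ≤ P.card) : ∃ N, 2 ≤ rpF P N := by
  obtain ⟨a, ha, b, hb, hab⟩ := one_lt_card.1 (lt_of_lt_of_le one_lt_two h)
  refine ⟨a + b, ?_⟩
  unfold rpF
  have hsub : ({(a, b), (b, a)} : Finset (ℕ × ℕ)) ⊆ (P ×ˢ P).filter
      fun q => q.1 + q.2 = a + b := by
    intro p hp
    simp only [mem_insert, mem_singleton] at hp
    rcases hp with rfl | rfl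
    · simp [ha, hb]
    · simp [ha, hb, add_comm]
  refine le_trans ?_ (card_le_card hsub)
  rw [card_pair]
  intro h
  simp only [Prod.mk.injEq] at h
  exact hab h.1

lemma Tiled.trans {s Q Q' : ℕ} {F G : ℕ → Finset ℕ} {P : Finset ℕ} (h : Tiled s Q G P)
    (h' : ∀ p < s, Tiled s Q' F (G p)) : Tiled s (Q * Q') F P := by
  obtain ⟨D, hD1, hD2, hD3, hD4⟩ := h
  choose! E hE1 hE2 hE3 hE4 using h'
  refine ⟨D.biUnion fun q => (E q.2).image fun e => (q.1 + e.1, e.2), ?_, ?_, ?_, ?_⟩
  · calc _ ≤ ∑ q ∈ D, ((E q.2).image fun e => (q.1 + e.1, e.2)).card := card_biUnion_le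
      _ ≤ ∑ _q ∈ D, Q' := sum_le_sum fun q hq => card_image_le.trans (hE1 _ (hD2 q hq))
      _ = D.card * Q' := by rw [sum_const, smul_eq_mul]
      _ ≤ Q * Q' := Nat.mul_le_mul_right _ hD1
  · intro x hx
    rw [mem_biUnion] at hx
    obtain ⟨q, hq, hx⟩ := hx
    rw [mem_image] at hx
    obtain ⟨e, he, rfl⟩ := hx
    exact hE2 _ (hD2 q hq) e he
  · intro x hx y hy hxy
    rw [mem_biUnion] at hx hy
    obtain ⟨q, hq, hx⟩ := hx
    obtain ⟨r, hr, hy⟩ := hy
    rw [mem_image] at hx hy
    obtain ⟨e, he, rfl⟩ := hx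
    obtain ⟨f, hf, rfl⟩ := hy
    -- translates inside the sets of the middle level
    have hsub : ∀ q ∈ D, ∀ e ∈ E q.2, (F e.2).image ((q.1 + e.1) + ·) ⊆
        ((G q.2).image (q.1 + ·)) := by
      intro q hq e he z hz
      rw [mem_image] at hz
      obtain ⟨w, hw, rfl⟩ := hz
      have h1 : e.1 + w ∈ G q.2 := by
        rw [hE4 _ (hD2 q hq), mem_biUnion]
        exact ⟨e, he, mem_image_of_mem _ hw⟩
      have h2 : q.1 + e.1 + w = q.1 + (e.1 + w) := by ring
      change q.1 + e.1 + w ∈ _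
      rw [h2]
      exact mem_image_of_mem _ h1
    by_cases hqr : q = r
    · subst hqr
      have hef : e ≠ f := by
        rintro rfl
        exact hxy rfl
      have h1 := hE3 _ (hD2 q hq) e he f hf hef
      rw [Finset.disjoint_left] at h1 ⊢
      intro z hz1 hz2
      rw [mem_image] at hz1 hz2
      obtain ⟨w1, hw1, rfl⟩ := hz1
      obtain ⟨w2, hw2, h2⟩ := hz2
      simp only at h2
      refine h1 (mem_image_of_mem _ hw1) ?_
      rw [mem_image]
      exact ⟨w2, hw2, by omega⟩
    · exact Finset.disjoint_of_subset_left (hsub q hq e he)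
        (Finset.disjoint_of_subset_right (hsub r hr f hf) (hD3 q hq r hr hqr))
  · rw [hD4]
    ext z
    simp only [mem_biUnion, mem_image]
    constructor
    · rintro ⟨q, hq, w, hw, rfl⟩
      rw [hE4 _ (hD2 q hq), mem_biUnion] at hw
      obtain ⟨e, he, hw⟩ := hw
      rw [mem_image] at hw
      obtain ⟨v, hv, rfl⟩ := hw
      exact ⟨(q.1 + e.1, e.2), ⟨q, hq, e, he, rfl⟩, v, hv, by ring⟩
    · rintro ⟨x, ⟨q, hq, e, he, rfl⟩, v, hv, rfl⟩
      refine ⟨q, hq, e.1 + v, ?_, by ring⟩
      rw [hE4 _ (hD2 q hq), mem_biUnion]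
      exact ⟨e, he, mem_image_of_mem _ hv⟩

lemma tiled_self {s : ℕ} {F : ℕ → Finset ℕ} {p : ℕ} (hp : p < s) : Tiled s 1 F (F p) := by
  refine ⟨{(0, p)}, by simp, by simpa using hp, ?_, by simp⟩
  intro q hq q' hq' h
  rw [mem_singleton] at hq hq'
  exact absurd (hq.trans hq'.symm) h

/-- Several levels at once. -/
lemma tiled_levels {s Q n : ℕ} {F : ℕ → ℕ → Finset ℕ} (h : SelfSimilar s Q n F) (i : ℕ) :
    ∀ l, i + l ≤ n → ∀ p < s, Tiled s (Q ^ l) (F i) (F (i + l) p) := by
  intro l
  induction l with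
  | zero =>
    intro _ p hp
    exact tiled_self hp
  | succ l ih =>
    intro hl p hp
    have h1 : Tiled s Q (F (i + l)) (F (i + l + 1) p) := h.2 (i + l) (by omega) p hp
    have h2 := h1.trans (ih (by omega))
    rw [pow_succ, mul_comm]
    exact h2

lemma Tiled.mono {s Q Q' : ℕ} {F : ℕ → Finset ℕ} {P : Finset ℕ} (h : Tiled s Q F P)
    (hQ : Q ≤ Q') : Tiled s Q' F P := by
  obtain ⟨D, hD1, hD⟩ := h
  exact ⟨D, hD1.trans hQ, hD⟩

/-- **Box lemma.** -/
theorem boxG (B s : ℕ) : ∀ (k : ℕ) (F : ℕ → ℕ → Finset ℕ), SelfSimilar s B k F → ∀ p < s,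
    F k p = ∅ ∨ ∃ j N, (F k p).card ≤ s ^ k * B ^ j ∧ 2 ^ j ≤ rpF (F k p) N := by
  intro k
  induction k with
  | zero =>
    intro F hF p hp
    rcases Finset.eq_empty_or_nonempty (F 0 p) with h | ⟨a, ha⟩
    · exact Or.inl h
    · right
      refine ⟨0, a + a, ?_, ?_⟩
      · simpa using hF.1 p hp
      · rw [pow_zero]
        exact Finset.card_pos.2 ⟨(a, a), by simp [ha]⟩
  | succ k ih =>
    intro F hF p hp
    rcases Finset.eq_empty_or_nonempty (F (k + 1) p) with hE | hNE
    · exact Or.inl hE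
    right
    obtain ⟨D, hD1, hD2, hD3, hD4⟩ := hF.2 k (by omega) p hp
    have hcard : (F (k + 1) p).card = ∑ q ∈ D, (F k q.2).card := by
      rw [hD4, card_biUnion]
      · refine sum_congr rfl fun q _ => card_image_of_injective _ ?_
        intro x y hxy
        simp only at hxy
        omega
      · intro q hq q' hq' h
        exact hD3 q hq q' hq' h
    have hfib : ∑ q ∈ D, (F k q.2).card =
        ∑ p' ∈ range s, (D.filter fun q => q.2 = p').card * (F k p').card := by
      rw [← sum_fiberwise_of_maps_to (s := D) (t := range s) (g := fun q => q.2)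
        (fun q hq => mem_range.2 (hD2 q hq))]
      refine sum_congr rfl fun p' _ => ?_
      rw [card_eq_sum_ones, sum_mul]
      refine sum_congr rfl fun q hq => ?_
      rw [(mem_filter.1 hq).2, one_mul]
    obtain ⟨p', hp', hmax⟩ := exists_max_image (range s)
      (fun p' => (D.filter fun q => q.2 = p').card * (F k p').card) ⟨p, mem_range.2 hp⟩
    have hle : (F (k + 1) p).card ≤
        s * ((D.filter fun q => q.2 = p').card * (F k p').card) := by
      rw [hcard, hfib]
      conv_rhs => rw [← card_range s, ← smul_eq_mul, ← sum_const]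
      exact sum_le_sum fun q hq => hmax q hq
    have hpos := hNE.card_pos
    set W := D.filter fun q => q.2 = p' with hW
    have hWpos : 0 < W.card := by
      rcases Nat.eq_zero_or_pos W.card with h | h
      · rw [h] at hle; omega
      · exact h
    have hcT : F k p' ≠ ∅ := by
      intro h
      rw [h, card_empty] at hle
      omega
    have hWB : W.card ≤ B := (card_filter_le _ _).trans hD1
    have hF' : SelfSimilar s B k F := ⟨hF.1, fun i hi => hF.2 i (by omega)⟩
    rcases ih F hF' p' (mem_range.1 hp') with h | ⟨j, N, h1, h2⟩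
    · exact absurd h hcT
    have hsub : ∀ q ∈ W, (F k p').image (q.1 + ·) ⊆ F (k + 1) p := by
      intro q hq z hz
      have hq' := mem_filter.1 hq
      rw [hD4, mem_biUnion]
      exact ⟨q, hq'.1, by rw [hq'.2]; exact hz⟩
    rcases Nat.lt_or_ge 1 W.card with hW2 | hW1
    · obtain ⟨q1, hq1, q2, hq2, hne⟩ := one_lt_card.1 hW2
      have e1 := mem_filter.1 hq1
      have e2 := mem_filter.1 hq2
      have hdis := hD3 q1 e1.1 q2 e2.1 hne
      rw [e1.2, e2.2] at hdis
      refine ⟨j + 1, N + (q1.1 + q2.1), ?_, ?_⟩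
      · calc (F (k + 1) p).card ≤ s * (W.card * (F k p').card) := hle
          _ ≤ s * (B * (s ^ k * B ^ j)) := Nat.mul_le_mul_left _ (Nat.mul_le_mul hWB h1)
          _ = s ^ (k + 1) * B ^ (j + 1) := by ring
      · calc 2 ^ (j + 1) = 2 * 2 ^ j := by ring
          _ ≤ 2 * rpF (F k p') N := Nat.mul_le_mul_left _ h2
          _ ≤ _ := rpF_two (hsub q1 hq1) (hsub q2 hq2) hdis
    · obtain ⟨q, hq⟩ := Finset.card_pos.1 hWpos
      have hWone : W.card = 1 := by omega
      refine ⟨j, N + (q.1 + q.1), ?_, ?_⟩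
      · calc (F (k + 1) p).card ≤ s * (W.card * (F k p').card) := hle
          _ ≤ s * (1 * (s ^ k * B ^ j)) := Nat.mul_le_mul_left _ (Nat.mul_le_mul hWone.le h1)
          _ = s ^ (k + 1) * B ^ j := by ring
      · exact h2.trans (rpF_one (hsub q hq))

/-- The box lemma for groups of `l` levels. -/
theorem groupG {s Q n l : ℕ} {F : ℕ → ℕ → Finset ℕ} (h : SelfSimilar s Q n F) (hQ : 1 ≤ Q)
    (hl : 1 ≤ l) {p : ℕ} (hp : p < s) (hne : F n p ≠ ∅) :
    ∃ j N, (F n p).card ≤ s ^ (n / l + 1) * (Q ^ l) ^ j ∧ 2 ^ j ≤ rpF (F n p) N := by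
  set c : ℕ → ℕ := fun i => min (i * l) n with hcdef
  have hcm : ∀ i, c i ≤ c (i + 1) := by
    intro i
    simp only [hcdef]
    exact min_le_min_right _ (Nat.mul_le_mul_right _ (Nat.le_succ _))
  have hcn : c (n / l + 1) = n := by
    simp only [hcdef]
    apply min_eq_right
    have h := Nat.lt_div_mul_add (a := n) (b := l) (by omega)
    rw [Nat.add_mul, one_mul]
    exact h.le
  have hc0 : c 0 = 0 := by simp [hcdef]
  have hself : SelfSimilar s (Q ^ l) (n / l + 1) (fun i => F (c i)) := by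
    refine ⟨?_, ?_⟩
    · simp only [hc0]
      exact h.1
    · intro i _ p hp
      have h3 : c (i + 1) ≤ c i + l := by
        simp only [hcdef]
        rw [Nat.add_mul, one_mul]
        omega
      obtain ⟨t, ht⟩ := Nat.exists_eq_add_of_le (hcm i)
      have h4 := tiled_levels h (c i) t (by rw [← ht]; exact min_le_right _ _) p hp
      rw [← ht] at h4
      exact h4.mono (Nat.pow_le_pow_right hQ (by omega))
  have hb := boxG (Q ^ l) s (n / l + 1) (fun i => F (c i)) hself p hp
  simp only [hcn] at hb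
  rcases hb with hb | hb
  · exact absurd hb hne
  · exact hb

/-- **Theorem G.** -/
theorem gen (Q : ℕ) (α : ℝ) (hα : 0 < α) : ∃ c : ℝ, 0 < c ∧ ∀ s n : ℕ, 2 ≤ s → 1 ≤ n →
    ∀ F : ℕ → ℕ → Finset ℕ, SelfSimilar s Q n F → ∀ p < s,
    Real.exp (α * n) ≤ ((F n p).card : ℝ) →
    ∃ N, ((F n p).card : ℝ) ^ (c / Real.log s) ≤ rpF (F n p) N := by
  have hl2 : 0 < Real.log 2 := Real.log_pos (by norm_num)
  set K : ℝ := 4 / α + 1 / Real.log 2 with hK
  have hKpos : 0 < K := by positivity
  set q : ℝ := max (Real.log Q) 1 with hq'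
  have hqpos : 0 < q := lt_of_lt_of_le one_pos (le_max_right _ _)
  set c₁ : ℝ := Real.log 2 / (2 * K * q) with hc₁
  have hc₁pos : 0 < c₁ := by positivity
  refine ⟨min c₁ (Real.log 2 / 4), lt_min hc₁pos (by positivity), ?_⟩
  intro s n hs hn F hF p hp hcard
  set c := min c₁ (Real.log 2 / 4) with hc
  have hcpos : 0 < c := lt_min hc₁pos (by positivity)
  have hnr : (1 : ℝ) ≤ n := by exact_mod_cast hn
  have hX1 : (1 : ℝ) < (F n p).card := lt_of_lt_of_le (by
    rw [← Real.exp_zero]
    exact Real.exp_lt_exp.2 (by positivity)) hcard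
  have hX2 : 2 ≤ (F n p).card := by
    have : 1 < (F n p).card := by exact_mod_cast hX1
    omega
  have hX0 : (0 : ℝ) < (F n p).card := by linarith
  set L := Real.log (F n p).card with hL
  have hLpos : 0 < L := Real.log_pos hX1
  have hLn : α * n ≤ L := by
    rw [hL, Real.le_log_iff_exp_le hX0]
    exact hcard
  have hs2 : (2 : ℝ) ≤ s := by exact_mod_cast hs
  have hlam : Real.log 2 ≤ Real.log s := Real.log_le_log (by norm_num) hs2
  have hlampos : 0 < Real.log s := lt_of_lt_of_le hl2 hlam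
  have hne : F n p ≠ ∅ := by
    intro h
    rw [h, card_empty] at hX2
    omega
  have hQ1 : 1 ≤ Q := by
    rcases Nat.eq_zero_or_pos Q with h | h
    · obtain ⟨n', rfl⟩ : ∃ n', n = n' + 1 := ⟨n - 1, by omega⟩
      obtain ⟨D, hD1, _, _, hD4⟩ := hF.2 n' (by omega) p hp
      have hD : D = ∅ := by
        rw [← card_eq_zero]; omega
      rw [hD, biUnion_empty] at hD4
      exact absurd hD4 hne
    · exact h
  rcases le_or_gt (Real.log s) (L / 4) with hcase | hcase
  · set l := ⌈4 * Real.log s / α⌉₊ with hl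
    have hlge : 4 * Real.log s / α ≤ l := Nat.le_ceil _
    have hlpos : 0 < 4 * Real.log s / α := by positivity
    have hl1 : 1 ≤ l := Nat.one_le_iff_ne_zero.2 (by
      intro h
      rw [h] at hlge
      push_cast at hlge
      linarith)
    have hlle : (l : ℝ) ≤ K * Real.log s := by
      have h3 : (l : ℝ) < 4 * Real.log s / α + 1 := Nat.ceil_lt_add_one hlpos.le
      have h4 : K * Real.log s = 4 * Real.log s / α + Real.log s / Real.log 2 := by
        rw [hK]; ring
      have h5 : 1 ≤ Real.log s / Real.log 2 := by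
        rw [le_div_iff₀ hl2]; linarith
      linarith
    obtain ⟨j, N, hj1, hj2⟩ := groupG hF hQ1 hl1 hp hne
    refine ⟨N, ?_⟩
    have hl0 : (0 : ℝ) < l := by exact_mod_cast (by omega : 0 < l)
    have e1 : L ≤ ((n / l : ℕ) + 1) * Real.log s + j * (l * Real.log Q) := by
      have h3 : ((F n p).card : ℝ) ≤ (s : ℝ) ^ (n / l + 1) * ((Q : ℝ) ^ l) ^ j := by
        exact_mod_cast hj1
      have h4 := Real.log_le_log hX0 h3
      have hQ0 : (Q : ℝ) ≠ 0 := by exact_mod_cast (by omega : Q ≠ 0)
      rw [Real.log_mul (by positivity) (by positivity), Real.log_pow,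
        Real.log_pow, Real.log_pow] at h4
      push_cast at h4
      exact h4
    have e2 : ((n / l : ℕ) : ℝ) * Real.log s ≤ L / 4 := by
      have h3 : ((n / l : ℕ) : ℝ) ≤ n / l := Nat.cast_div_le
      have h4 : (n : ℝ) / l ≤ n / (4 * Real.log s / α) :=
        div_le_div_of_nonneg_left (by positivity) hlpos hlge
      have h5 : (n : ℝ) / (4 * Real.log s / α) * Real.log s = α * n / 4 := by
        field_simp
      calc ((n / l : ℕ) : ℝ) * Real.log s
          ≤ (n : ℝ) / (4 * Real.log s / α) * Real.log s :=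
            mul_le_mul_of_nonneg_right (h3.trans h4) hlampos.le
        _ = α * n / 4 := h5
        _ ≤ L / 4 := by linarith
    have e3 : L / 2 ≤ j * (K * Real.log s * q) := by
      have h3 : (j : ℝ) * (l * Real.log Q) ≤ j * (K * Real.log s * q) := by
        refine mul_le_mul_of_nonneg_left ?_ (Nat.cast_nonneg _)
        refine mul_le_mul hlle (le_max_left _ _) (Real.log_natCast_nonneg _) (by positivity)
      linarith
    have e4 : c / Real.log s * L ≤ j * Real.log 2 := by
      have h3 : c / Real.log s * L ≤ c₁ / Real.log s * L := by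
        refine mul_le_mul_of_nonneg_right ?_ hLpos.le
        exact div_le_div_of_nonneg_right (min_le_left _ _) hlampos.le
      refine h3.trans ?_
      have h4 : c₁ / Real.log s * L = (L / 2) * (Real.log 2 / (K * Real.log s * q)) := by
        rw [hc₁]
        field_simp
      rw [h4]
      calc (L / 2) * (Real.log 2 / (K * Real.log s * q))
          ≤ (j * (K * Real.log s * q)) * (Real.log 2 / (K * Real.log s * q)) :=
            mul_le_mul_of_nonneg_right e3 (by positivity)
        _ = j * Real.log 2 := by field_simp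
    have e5 : ((F n p).card : ℝ) ^ (c / Real.log s) ≤ (2 : ℝ) ^ j := by
      rw [Real.rpow_def_of_pos hX0, ← Real.rpow_natCast 2 j,
        Real.rpow_def_of_pos (by norm_num : (0 : ℝ) < 2)]
      apply Real.exp_le_exp.2
      have h3 : Real.log (F n p).card * (c / Real.log s) = c / Real.log s * L := by ring
      rw [h3]
      linarith
    exact e5.trans (by exact_mod_cast hj2)
  · obtain ⟨N, hN⟩ := rpF_empty_or hX2
    refine ⟨N, ?_⟩
    have e1 : ((F n p).card : ℝ) ^ (c / Real.log s) ≤ 2 := by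
      rw [Real.rpow_def_of_pos hX0]
      have h3 : Real.log (F n p).card * (c / Real.log s) ≤ Real.log 2 := by
        have h4 : c ≤ Real.log 2 / 4 := min_le_right _ _
        have h5 : L * (c / Real.log s) = c * L / Real.log s := by ring
        rw [← hL, h5, div_le_iff₀ hlampos]
        calc c * L ≤ Real.log 2 / 4 * L := mul_le_mul_of_nonneg_right h4 hLpos.le
          _ = Real.log 2 * (L / 4) := by ring
          _ ≤ Real.log 2 * Real.log s := mul_le_mul_of_nonneg_left hcase.le hl2.le
      calc Real.exp (Real.log (F n p).card * (c / Real.log s)) ≤ Real.exp (Real.log 2) :=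
            Real.exp_le_exp.2 h3
        _ = 2 := Real.exp_log (by norm_num)
    exact e1.trans (by exact_mod_cast hN)

end Pool.Agent.Helper1.TY
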