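import Mathlib

/-!
# One-tape nondeterministic machines: itineraries and mixing

The crossing sequence argument (Hennie) in the following form. Cut the tape into pieces. If, for
every piece, a run is given and all runs have the same itinerary (the list of the cells and states
at the times when the head changes the piece), then the tape which agrees on every piece with the
tape of the run belonging to it has an accepting run.
-/

set_option autoImplicit false

namespace Pool.Agent.Helper1.TY

/-- A nondeterministic machine with one two-sided tape, states `Q` and tape symbols `G`. In the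
state `q` with the symbol `g` under the head it may write the symbol `g'`, move the head by `d` and
pass to the state `q'` if `step q g q' g' d` holds. -/
structure Machine (Q G : Type) where
  /-- the allowed steps -/
  step : Q → G → Q → G → ℤ → Prop
  /-- the head moves by at most one cell -/
  move : ∀ q g q' g' d, step q g q' g' d → |d| ≤ 1
  /-- the initial state -/
  start : Q
  /-- the accepting states -/
  acc : Set Q

/-- A configuration: the state, the position of the head and the content of the tape. -/
@[ext] structure Conf (Q G : Type) where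
  /-- the state -/
  state : Q
  /-- the cell under the head -/
  head : ℤ
  /-- the content of the tape -/
  tape : ℤ → G

variable {Q G : Type}

/-- `D` follows `C` in one step. -/
def Step (M : Machine Q G) (C D : Conf Q G) : Prop :=
  M.step C.state (C.tape C.head) D.state (D.tape C.head) (D.head - C.head) ∧
    ∀ z, z ≠ C.head → D.tape z = C.tape z

/-- `D` is reached from `C` in `n` steps. -/
def Steps (M : Machine Q G) : ℕ → Conf Q G → Conf Q G → Prop
  | 0, C, D => C = D
  | n + 1, C, D => ∃ E, Step M C E ∧ Steps M n E D

/-- `D` is reached from `C` by steps inside one piece. -/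
inductive Ins (M : Machine Q G) (pc : ℤ → ℤ) : Conf Q G → Conf Q G → Prop
  | refl (C : Conf Q G) : Ins M pc C C
  | head {C E D : Conf Q G} : Step M C E → pc C.head = pc E.head → Ins M pc E D → Ins M pc C D

/-- `D` is reached from `C` by a run with itinerary `l`: the list of the cell and the state after
every step in which the head changes the piece. -/
def Run (M : Machine Q G) (pc : ℤ → ℤ) : List (ℤ × Q) → Conf Q G → Conf Q G → Prop
  | [], C, D => Ins M pc C D
  | p :: l, C, D => ∃ E F, Ins M pc C E ∧ Step M E F ∧ pc E.head ≠ pc F.head ∧
      F.head = p.1 ∧ F.state = p.2 ∧ Run M pc l F D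

lemma Step.change {M : Machine Q G} {C D : Conf Q G} (h : Step M C D) {z : ℤ}
    (hz : z ≠ C.head) : D.tape z = C.tape z := h.2 z hz

/-- Only the visited piece changes. -/
lemma Ins.other {M : Machine Q G} {pc : ℤ → ℤ} {C D : Conf Q G} (h : Ins M pc C D) :
    pc C.head = pc D.head ∧ ∀ z, pc z ≠ pc C.head → D.tape z = C.tape z := by
  induction h with
  | refl C => exact ⟨rfl, fun _ _ => rfl⟩
  | head hs hp _ ih =>
    refine ⟨hp.trans ih.1, fun z hz => ?_⟩
    rw [ih.2 z (by rw [← hp]; exact hz)]
    exact hs.2 z (fun h => hz (by rw [h]))

/-- The tape of `C` on the piece `a`, the tape of `B` elsewhere. -/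
def glue (pc : ℤ → ℤ) (a : ℤ) (C : Conf Q G) (t : ℤ → G) : Conf Q G :=
  ⟨C.state, C.head, fun z => if pc z = a then C.tape z else t z⟩

lemma step_glue {M : Machine Q G} {pc : ℤ → ℤ} {a : ℤ} {C D : Conf Q G} {t : ℤ → G}
    (h : Step M C D) (ha : pc C.head = a) : Step M (glue pc a C t) (glue pc a D t) := by
  refine ⟨?_, ?_⟩
  · simp only [glue, ha, if_true]
    exact h.1
  · intro z hz
    simp only [glue] at hz ⊢
    rw [h.2 z hz]

/-- A computation inside a piece does not depend on the rest of the tape. -/
lemma ins_glue {M : Machine Q G} {pc : ℤ → ℤ} {a : ℤ} {C D : Conf Q G} {t : ℤ → G}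
    (h : Ins M pc C D) (ha : pc C.head = a) : Ins M pc (glue pc a C t) (glue pc a D t) := by
  induction h with
  | refl C => exact Ins.refl _
  | head hs hp _ ih =>
    exact Ins.head (step_glue hs ha) hp (ih (hp ▸ ha))

/-- `D` can be reached from `C`. -/
def Reach (M : Machine Q G) (C D : Conf Q G) : Prop := ∃ n, Steps M n C D

lemma Reach.refl (M : Machine Q G) (C : Conf Q G) : Reach M C C := ⟨0, rfl⟩

lemma Reach.head {M : Machine Q G} {C E D : Conf Q G} (h : Step M C E) (h' : Reach M E D) :
    Reach M C D := by
  obtain ⟨n, hn⟩ := h'
  exact ⟨n + 1, E, h, hn⟩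

lemma Ins.reach {M : Machine Q G} {pc : ℤ → ℤ} {C E D : Conf Q G} (h : Ins M pc C E)
    (h' : Reach M E D) : Reach M C D := by
  induction h with
  | refl C => exact h'
  | head hs _ _ ih => exact Reach.head hs (ih h')

/-- **Mixing.** Runs with the same itinerary, one for every piece, all starting with the same head
and state: the tape which is on the piece `p` the tape of the `p`-th run has a run which ends in
the state of one of them. -/
theorem mix {M : Machine Q G} {pc : ℤ → ℤ} (l : List (ℤ × Q)) :
    ∀ (C D : ℤ → Conf Q G) (h : ℤ) (q : Q), (∀ p, (C p).head = h) → (∀ p, (C p).state = q) →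
    (∀ p, Run M pc l (C p) (D p)) →
    ∃ E, Reach M ⟨q, h, fun z => (C (pc z)).tape z⟩ E ∧ ∃ p, E.state = (D p).state := by
  induction l with
  | nil =>
    intro C D h q hh hq hrun
    set a := pc h with ha
    have h1 : Ins M pc (C a) (D a) := hrun a
    have h2 := ins_glue (t := fun z => (C (pc z)).tape z) h1 (a := a) (by rw [hh a])
    have h3 : glue pc a (C a) (fun z => (C (pc z)).tape z) =
        ⟨q, h, fun z => (C (pc z)).tape z⟩ := by
      unfold glue
      rw [hh a, hq a]
      congr 1
      funext z
      split_ifs with hz
      · rw [hz]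
      · rfl
    rw [h3] at h2
    exact ⟨_, h2.reach (Reach.refl M _), a, rfl⟩
  | cons x l ih =>
    intro C D h q hh hq hrun
    set a := pc h with ha
    have hrun' : ∀ p, ∃ E F, Ins M pc (C p) E ∧ Step M E F ∧ pc E.head ≠ pc F.head ∧
      F.head = x.1 ∧ F.state = x.2 ∧ Run M pc l F (D p) := hrun
    choose E F h1 h2 _ h4 h5 h6 using hrun'
    have hE : ∀ p, pc (E p).head = a := by
      intro p
      rw [← (h1 p).other.1, hh p]
    obtain ⟨K, hK, p, hp⟩ := ih F D x.1 x.2 h4 h5 h6
    refine ⟨K, ?_, p, hp⟩
    -- the run inside the piece `a`
    have h7 := ins_glue (t := fun z => (C (pc z)).tape z) (h1 a) (a := a) (by rw [hh a])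
    have h8 : glue pc a (C a) (fun z => (C (pc z)).tape z) =
        ⟨q, h, fun z => (C (pc z)).tape z⟩ := by
      unfold glue
      rw [hh a, hq a]
      congr 1
      funext z
      split_ifs with hz
      · rw [hz]
      · rfl
    rw [h8] at h7
    have h9 := step_glue (t := fun z => (C (pc z)).tape z) (h2 a) (hE a)
    have h10 : glue pc a (F a) (fun z => (C (pc z)).tape z) =
        ⟨x.2, x.1, fun z => (F (pc z)).tape z⟩ := by
      unfold glue
      rw [h4 a, h5 a]
      congr 1
      funext z
      split_ifs with hz
      · rw [hz]
      · have h11 : (E (pc z)).tape z = (C (pc z)).tape z :=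
          (h1 (pc z)).other.2 z (by rw [hh (pc z)]; exact hz)
        have h12 : (F (pc z)).tape z = (E (pc z)).tape z :=
          (h2 (pc z)).2 z (fun h => hz (by rw [h]; exact hE _))
        rw [h12, h11]
    rw [h10] at h9
    exact h7.reach (Reach.head h9 hK)

end Pool.Agent.Helper1.TY
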