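import Pool.Agent.Helper45.TY.Result
import Pool.Agent.Helper45.TY.Gather

/-!
# Machines which read several numbers on parallel tracks

The set of the accepted tuples with a given itinerary is a box, and its projections are boxes
in `A`.
-/

set_option autoImplicit false

open Finset Filter

namespace Pool.Agent.Helper1.TY

open Pool.Agent.Helper45.TY

/-- The choice of the length of the pieces. -/
theorem arith (q : ℕ) (hq : 2 ≤ q) (d : ℝ) (hd : 0 < d) : ∃ c : ℝ, 0 < c ∧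
    ∀ (s : ℕ), 1 ≤ s → ∀ (n T X : ℕ) (A : Set ℕ), 1 ≤ n → n ≤ T →
      (q : ℝ) ^ (d * n) ≤ X →
      (∀ ℓ, 1 ≤ ℓ → ∃ j N, X ≤ ℓ ^ (n / (2 * ℓ)) * (2 * s + 1) ^ (T / ℓ) * q ^ (3 * ℓ * j) ∧
        2 ^ j ≤ rep A N) →
      ∃ N, Real.exp (c * n ^ 2 / (T * Real.log (s + 1))) ≤ rep A N := by
  have hq0 : (0 : ℝ) < q := by positivity
  set a : ℝ := Real.log q with ha
  have ha0 : 0 < a := Real.log_pos (by exact_mod_cast hq)
  set ℓ₀ : ℕ := ⌈16 / (d * a) ^ 2⌉₊ + 1 with hℓ₀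
  set C : ℝ := 2 * (ℓ₀ + 1) + 8 / (d * a) with hC
  have hC0 : 0 < C := by positivity
  have hlog2 : 0 < Real.log 2 := Real.log_pos (by norm_num)
  have hlog2' : (1 : ℝ) / 2 < Real.log 2 := by
    have := Real.log_two_gt_d9
    linarith
  refine ⟨Real.log 2 * d / (6 * C), by positivity, ?_⟩
  intro s hs n T X A hn hT hcard hcount
  have hn0 : (0 : ℝ) < n := by exact_mod_cast hn
  have hTn : (n : ℝ) ≤ T := by exact_mod_cast hT
  have hT0 : (0 : ℝ) < T := hn0.trans_le hTn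
  have hQ1 : (1 : ℝ) ≤ s := by exact_mod_cast hs
  set Λ : ℝ := Real.log (s + 1) with hΛ
  have hΛ2 : Real.log 2 ≤ Λ := Real.log_le_log (by norm_num) (by linarith)
  have hΛ0 : 0 < Λ := hlog2.trans_le hΛ2
  set ℓ : ℕ := max ℓ₀ ⌈8 * T * Λ / (d * n * a)⌉₊ with hℓ
  have hℓ1 : 1 ≤ ℓ := le_trans (by omega) (le_max_left _ _)
  have hℓ0 : (0 : ℝ) < ℓ := by exact_mod_cast hℓ1
  have hℓa : 16 / (d * a) ^ 2 ≤ ℓ := by
    have h1 : (16 : ℝ) / (d * a) ^ 2 ≤ ⌈16 / (d * a) ^ 2⌉₊ := Nat.le_ceil _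
    have h2 : (⌈16 / (d * a) ^ 2⌉₊ : ℝ) ≤ (ℓ₀ : ℕ) := by
      exact_mod_cast (by omega : ⌈16 / (d * a) ^ 2⌉₊ ≤ ℓ₀)
    have h3 : ((ℓ₀ : ℕ) : ℝ) ≤ ℓ := by exact_mod_cast le_max_left _ _
    linarith
  have hℓb : 8 * T * Λ / (d * n * a) ≤ ℓ := by
    have h1 : 8 * T * Λ / (d * n * a) ≤ ⌈8 * T * Λ / (d * n * a)⌉₊ := Nat.le_ceil _
    have h3 : ((⌈8 * T * Λ / (d * n * a)⌉₊ : ℕ) : ℝ) ≤ ℓ := Nat.cast_le.2 (le_max_right _ _)
    linarith
  have hTΛ : 1 / 2 ≤ T * Λ / n := by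
    rw [le_div_iff₀ hn0]
    nlinarith
  have hℓc : (ℓ : ℝ) ≤ C * (T * Λ / n) := by
    have h1 : (ℓ : ℝ) ≤ ℓ₀ + (8 * T * Λ / (d * n * a) + 1) := by
      have h2 : ((⌈8 * T * Λ / (d * n * a)⌉₊ : ℕ) : ℝ) ≤ 8 * T * Λ / (d * n * a) + 1 :=
        (Nat.ceil_lt_add_one (by positivity)).le
      have h3 : (ℓ : ℝ) ≤ (ℓ₀ : ℝ) + (⌈8 * T * Λ / (d * n * a)⌉₊ : ℕ) := by
        rw [← Nat.cast_add]
        exact Nat.cast_le.2 (max_le (Nat.le_add_right _ _) (Nat.le_add_left _ _))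
      linarith
    have h4 : 8 * T * Λ / (d * n * a) = 8 / (d * a) * (T * Λ / n) := by
      field_simp
    have h5 : ((ℓ₀ : ℝ) + 1) ≤ 2 * (ℓ₀ + 1) * (T * Λ / n) := by
      have : (0 : ℝ) < (ℓ₀ : ℝ) + 1 := by positivity
      nlinarith
    rw [h4] at h1
    rw [hC]
    linarith
  obtain ⟨j, N, h1, h2⟩ := hcount ℓ hℓ1
  refine ⟨N, ?_⟩
  -- logarithms
  have h3 : d * n * a ≤ n / (2 * ℓ) * Real.log ℓ + T / ℓ * (2 * Λ) + 3 * ℓ * j * a := by
    have e1 : (q : ℝ) ^ (d * n) ≤ ((ℓ ^ (n / (2 * ℓ)) * (2 * s + 1) ^ (T / ℓ) *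
        q ^ (3 * ℓ * j) : ℕ) : ℝ) := hcard.trans (by exact_mod_cast h1)
    have e2 := Real.log_le_log (by positivity) e1
    rw [Real.log_rpow hq0] at e2
    push_cast at e2
    rw [Real.log_mul (by positivity) (by positivity), Real.log_mul (by positivity) (by positivity),
      Real.log_pow, Real.log_pow, Real.log_pow] at e2
    have e3 : ((n / (2 * ℓ) : ℕ) : ℝ) * Real.log ℓ ≤ n / (2 * ℓ) * Real.log ℓ := by
      refine mul_le_mul_of_nonneg_right ?_ (Real.log_nonneg (by exact_mod_cast hℓ1))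
      have := @Nat.cast_div_le ℝ _ _ _ n (2 * ℓ)
      push_cast at this
      exact this
    have e4 : Real.log (2 * s + 1) ≤ 2 * Λ := by
      rw [hΛ, ← Real.log_rpow (by positivity)]
      refine Real.log_le_log (by positivity) ?_
      rw [Real.rpow_two]
      nlinarith
    have e5 : ((T / ℓ : ℕ) : ℝ) * Real.log (2 * s + 1) ≤ T / ℓ * (2 * Λ) := by
      refine mul_le_mul Nat.cast_div_le e4 (Real.log_nonneg (by linarith)) (by positivity)
    have e6 : ((3 * ℓ * j : ℕ) : ℝ) * a = 3 * ℓ * j * a := by push_cast; ring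
    rw [← ha] at e2
    linarith
  have h4 : n / (2 * ℓ) * Real.log ℓ ≤ d * n * a / 4 := by
    have e1 : Real.log ℓ ≤ 2 * Real.sqrt ℓ := by
      have e2 : Real.log ℓ = 2 * Real.log (Real.sqrt ℓ) := by
        rw [Real.log_sqrt hℓ0.le]
        ring
      have e3 := Real.log_le_sub_one_of_pos (Real.sqrt_pos.2 hℓ0)
      linarith
    have e4 : 4 / (d * a) ≤ Real.sqrt ℓ := by
      rw [Real.le_sqrt (by positivity) hℓ0.le]
      refine le_trans (le_of_eq ?_) hℓa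
      field_simp
      norm_num
    have e5 : Real.sqrt ℓ * Real.sqrt ℓ = ℓ := Real.mul_self_sqrt hℓ0.le
    have e6 : 0 < Real.sqrt ℓ := Real.sqrt_pos.2 hℓ0
    calc (n : ℝ) / (2 * ℓ) * Real.log ℓ ≤ n / (2 * ℓ) * (2 * Real.sqrt ℓ) :=
          mul_le_mul_of_nonneg_left e1 (by positivity)
      _ = n / Real.sqrt ℓ := by
          rw [div_mul_eq_mul_div, div_eq_div_iff (by positivity) e6.ne']
          linear_combination (2 * (n : ℝ)) * e5
      _ ≤ d * n * a / 4 := by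
          rw [div_le_iff₀ e6]
          have e7 : 4 ≤ Real.sqrt ℓ * (d * a) := by
            rwa [div_le_iff₀ (by positivity)] at e4
          nlinarith
  have h5 : T / ℓ * (2 * Λ) ≤ d * n * a / 4 := by
    rw [div_mul_eq_mul_div, div_le_iff₀ hℓ0]
    rw [div_le_iff₀ (by positivity)] at hℓb
    nlinarith
  have h6 : d * n / 2 ≤ 3 * ℓ * j := by
    have e1 : d * n / 2 * a ≤ 3 * ℓ * j * a := by nlinarith
    exact le_of_mul_le_mul_right e1 ha0
  have h7 : d * n ^ 2 / (6 * C * (T * Λ)) ≤ j := by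
    rw [div_le_iff₀ (by positivity)]
    have e1 : 3 * ℓ * (j : ℝ) ≤ 3 * (C * (T * Λ / n)) * j := by
      refine mul_le_mul_of_nonneg_right ?_ (by positivity)
      linarith
    have e2 : d * n / 2 * n ≤ 3 * (C * (T * Λ / n)) * j * n :=
      mul_le_mul_of_nonneg_right (h6.trans e1) hn0.le
    have e3 : 3 * (C * (T * Λ / n)) * j * n = 3 * C * (T * Λ) * j := by
      field_simp
    rw [e3] at e2
    nlinarith
  have h8 : Real.log 2 * d / (6 * C) * n ^ 2 / (T * Λ) ≤ j * Real.log 2 := by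
    have e1 : Real.log 2 * d / (6 * C) * n ^ 2 / (T * Λ) =
        d * n ^ 2 / (6 * C * (T * Λ)) * Real.log 2 := by
      field_simp
    rw [e1]
    exact mul_le_mul_of_nonneg_right h7 hlog2.le
  calc Real.exp (Real.log 2 * d / (6 * C) * n ^ 2 / (T * Λ)) ≤ Real.exp (j * Real.log 2) :=
        Real.exp_le_exp.2 h8
    _ = (2 : ℝ) ^ j := by
        rw [mul_comm, Real.exp_mul, Real.exp_log (by norm_num), Real.rpow_natCast]
    _ ≤ rep A N := by exact_mod_cast h2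


variable {Q Γ : Type}

/-- The track number `k`. -/
def track {n q t : ℕ} (k : Fin t) (w : Fin n → Fin (q ^ t)) (i : Fin n) : Fin q :=
  finFunctionFinEquiv.symm (w i) k

lemma tracks_injective {n q t : ℕ} {w w' : Fin n → Fin (q ^ t)}
    (h : ∀ k : Fin t, track k w = track k w') : w = w' := by
  funext i
  apply finFunctionFinEquiv.symm.injective
  funext k
  exact congrFun (h k) i

/-- **Counting for tuples.** -/
theorem count_tuples [Fintype Q] (M : Machine Q Γ) {n q t T : ℕ} (hq : 1 ≤ q) (ht : 1 ≤ t)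
    (enc : ℤ → Option (Fin (q ^ t)) → Γ) (v : Fin n → Fin q → ℕ) (A : Set ℕ)
    (hA : ∀ w : Fin n → Fin (q ^ t), M.Accepts (M.init enc w) →
      ∀ k : Fin t, Helper45.TY.val v (track k w) ∈ A)
    (hinj : Function.Injective (Helper45.TY.val v))
    (hne : {w : Fin n → Fin (q ^ t) | M.AcceptsIn T (M.init enc w)}.Nonempty) {ℓ : ℕ}
    (hℓ : 1 ≤ ℓ) :
    ∃ j N, {w : Fin n → Fin (q ^ t) | M.AcceptsIn T (M.init enc w)}.ncard ≤
      ℓ ^ (n / (2 * ℓ)) * (2 * Fintype.card Q + 1) ^ (T / ℓ) * (q ^ t) ^ (3 * ℓ * j) ∧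
      2 ^ j ≤ rep A N := by
  classical
  -- the accepted words
  obtain ⟨S, hS⟩ : ∃ S : Finset (Fin n → Fin (q ^ t)),
      ∀ w, w ∈ S ↔ M.AcceptsIn T (M.init enc w) :=
    ⟨Finset.univ.filter (fun w => M.AcceptsIn T (M.init enc w)), fun w => by simp⟩
  have hScard : {w : Fin n → Fin (q ^ t) | M.AcceptsIn T (M.init enc w)}.ncard = #S := by
    rw [← Set.ncard_coe_finset]
    congr 1
    ext w
    rw [mem_coe, hS]
    rfl
  have hSne : S.Nonempty := by
    obtain ⟨w, hw⟩ := hne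
    exact ⟨w, (hS w).2 hw⟩
  have hex : ∀ w : Fin n → Fin (q ^ t), ∃ (β : Fin (n / (2 * ℓ)) → Fin ℓ) (l : List (Bool × Q)),
      w ∈ S → l.length ≤ T / ℓ ∧ w ∈ M.cls enc (bds ℓ β) l := by
    intro w
    by_cases hw : w ∈ S
    · obtain ⟨β, l, h⟩ := exists_cls M hℓ enc ((hS w).1 hw)
      exact ⟨β, l, fun _ => h⟩
    · exact ⟨fun _ => ⟨0, hℓ⟩, [], fun h => absurd h hw⟩
  choose β l hβl using hex
  set g : (Fin n → Fin (q ^ t)) →
      (Fin (n / (2 * ℓ)) → Fin ℓ) × (Fin (T / ℓ) → Option (Bool × Q)) :=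
    fun w => (β w, fun i => (l w)[i.1]?) with hg
  -- the largest class
  obtain ⟨y, hy, hymax⟩ := exists_max_image (S.image g) (fun y => #{w ∈ S | g w = y})
    (hSne.image g)
  have h1 : #S ≤ #{w ∈ S | g w = y} * #(S.image g) :=
    card_le_mul_card_image S _ (fun a ha => hymax a ha)
  have h2 : #(S.image g) ≤ ℓ ^ (n / (2 * ℓ)) * (2 * Fintype.card Q + 1) ^ (T / ℓ) := by
    refine (card_le_univ _).trans ?_
    rw [Fintype.card_prod, Fintype.card_fun, Fintype.card_fun, Fintype.card_option,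
      Fintype.card_prod, Fintype.card_bool, Fintype.card_fin, Fintype.card_fin, Fintype.card_fin]
  obtain ⟨w₀, hw₀, rfl⟩ := mem_image.1 hy
  set W : Finset (Fin n → Fin (q ^ t)) := Finset.univ.filter
    (fun w => w ∈ M.cls enc (bds ℓ (β w₀)) (l w₀)) with hWdef
  have hWmem : ∀ w, w ∈ W ↔ w ∈ M.cls enc (bds ℓ (β w₀)) (l w₀) := fun w => by
    rw [hWdef, mem_filter]
    simp
  have h3 : #{w ∈ S | g w = g w₀} ≤ #W := by
    refine card_le_card (fun w hw => ?_)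
    rw [mem_filter] at hw
    obtain ⟨hwS, hgw⟩ := hw
    rw [hWmem]
    have e1 : β w = β w₀ := (Prod.ext_iff.1 hgw).1
    have e2 : l w = l w₀ := list_ext_of_le (hβl w hwS).1 (hβl w₀ hw₀).1
      (fun i => congrFun (Prod.ext_iff.1 hgw).2 i)
    rw [← e1, ← e2]
    exact (hβl w hwS).2
  have hWset : (W : Set (Fin n → Fin (q ^ t))) = M.cls enc (bds ℓ (β w₀)) (l w₀) := by
    ext w
    exact hWmem w
  have hWbox : IsBox (fun i : Fin n => pcs (bds ℓ (β w₀)) (i.1 : ℤ))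
      (W : Set (Fin n → Fin (q ^ t))) := by
    rw [hWset]; exact isBox_cls M enc _ _
  have hWA : ∀ w ∈ W, ∀ k : Fin t, Helper45.TY.val v (track k w) ∈ A :=
    fun w hw => hA w (cls_accepts M enc _ _ ((hWmem w).1 hw))
  have hw₀W : w₀ ∈ W := (hWmem w₀).2 (hβl w₀ hw₀).2
  -- the projections
  have hproj : ∀ k : Fin t, ∃ j N, #(W.image (track k)) ≤ q ^ (3 * ℓ * j) ∧ 2 ^ j ≤ rep A N := by
    intro k
    refine box_lemma (b := 3 * ℓ) hq (fun i : Fin n => pcs (bds ℓ (β w₀)) (i.1 : ℤ))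
      (piece_card hℓ (β w₀)) (W.image (track k)) ?_ ⟨track k w₀, mem_image_of_mem _ hw₀W⟩ v
      hinj.injOn A ?_
    · intro c hc
      have h4 : ∀ p, ∃ w ∈ W, track k w = c p := fun p => by
        have h5 := hc p
        rw [mem_coe, mem_image] at h5
        exact h5
      choose c' hc' hfc using h4
      rw [mem_coe, mem_image]
      refine ⟨fun i => c' (pcs (bds ℓ (β w₀)) (i.1 : ℤ)) i, hWbox c' hc', ?_⟩
      funext i
      rw [← hfc]
      rfl
    · intro x hx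
      obtain ⟨w, hw, rfl⟩ := mem_image.1 hx
      exact hWA w hw k
  choose j N hj hN using hproj
  obtain ⟨k₀, _, hk₀⟩ := exists_max_image (univ : Finset (Fin t)) j ⟨⟨0, ht⟩, mem_univ _⟩
  refine ⟨j k₀, N k₀, ?_, hN k₀⟩
  have h8 : #W ≤ (q ^ t) ^ (3 * ℓ * j k₀) := by
    calc #W ≤ #(Fintype.piFinset fun k : Fin t => W.image (track k)) := by
          refine card_le_card_of_injOn (fun w k => track k w) ?_ ?_
          · intro w hw
            rw [mem_coe, Fintype.mem_piFinset]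
            exact fun k => mem_image_of_mem _ hw
          · intro w _ w' _ h
            exact tracks_injective fun k => congrFun h k
      _ = ∏ k : Fin t, #(W.image (track k)) := Fintype.card_piFinset _
      _ ≤ ∏ _k : Fin t, q ^ (3 * ℓ * j k₀) := by
          refine prod_le_prod' fun k _ => (hj k).trans ?_
          exact Nat.pow_le_pow_right hq (Nat.mul_le_mul_left _ (hk₀ k (mem_univ _)))
      _ = (q ^ t) ^ (3 * ℓ * j k₀) := by
          rw [prod_const, card_univ, Fintype.card_fin, ← pow_mul, ← pow_mul, mul_comm]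
  rw [hScard]
  calc #S ≤ #{w ∈ S | g w = g w₀} * #(S.image g) := h1
    _ ≤ (q ^ t) ^ (3 * ℓ * j k₀) *
        (ℓ ^ (n / (2 * ℓ)) * (2 * Fintype.card Q + 1) ^ (T / ℓ)) :=
      Nat.mul_le_mul (h3.trans h8) h2
    _ = _ := by ring

end Pool.Agent.Helper1.TY
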