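import Pool.Agent.Helper1.TY.Gen

/-!
# Sets with few sections

The sections of a set of natural numbers along a chain `m 0 = 1, m 1, m 2, ..` of divisors, and the
lower bound for the number of representations of a set with few sections.
-/

namespace Pool.Agent.Helper1.TY

open Finset

/-- The high sections of `A` below `X`: the sets `{n | M * n + r < X, M * n + r ∈ A}`, `r < M`. -/
def highSec (A : Set ℕ) (M X : ℕ) : Set (Set ℕ) :=
  {T | ∃ r < M, T = {n | M * n + r < X ∧ M * n + r ∈ A}}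

/-- The low sections of `A` below `X`: the sets `{r | r < M, M * n + r ∈ A}`, `M * n < X`. -/
def lowSec (A : Set ℕ) (M X : ℕ) : Set (Set ℕ) :=
  {T | ∃ n, M * n < X ∧ T = {r | r < M ∧ M * n + r ∈ A}}

/-- A family of finite sets at every level `0, .., n`, at most `s` sets at every level, every set
of a level a disjoint union of at most `Q` translates of sets of the level below. -/
structure Fam (s Q n : ℕ) (U : ℕ → Set (Finset ℕ)) : Prop where
  card_le : ∀ i ≤ n, (U i).encard ≤ s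
  nonempty : ∀ i ≤ n, (U i).Nonempty
  zero : ∀ P ∈ U 0, P.card ≤ 1
  tiled : ∀ i < n, ∀ P ∈ U (i + 1), ∃ (I : Finset ℕ) (t : ℕ → ℕ) (S : ℕ → Finset ℕ),
    I.card ≤ Q ∧ (∀ d ∈ I, S d ∈ U i) ∧
    (∀ d ∈ I, ∀ d' ∈ I, d ≠ d' →
      Disjoint ((S d).image (t d + ·)) ((S d').image (t d' + ·))) ∧
    P = I.biUnion fun d => (S d).image (t d + ·)

lemma exists_enum' {α : Type*} {U : Set α} {s : ℕ} (h : U.encard ≤ s) (hne : U.Nonempty) :
    ∃ e : ℕ → α, (∀ p, e p ∈ U) ∧ ∀ u ∈ U, ∃ p < s, e p = u := by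
  have hfin : U.Finite := Set.finite_of_encard_le_coe h
  obtain ⟨u0, hu0⟩ := hne
  set F := hfin.toFinset with hF
  have hcard : F.card ≤ s := by
    have h1 : U.encard = F.card := by
      rw [hF, ← Set.Finite.encard_eq_coe_toFinset_card]
    rw [h1] at h
    exact_mod_cast h
  refine ⟨fun p => if hp : p < F.card then (F.equivFin.symm ⟨p, hp⟩ : α) else u0, ?_, ?_⟩
  · intro p
    by_cases hp : p < F.card
    · simp only [hp, dif_pos]
      exact hfin.mem_toFinset.1 (F.equivFin.symm ⟨p, hp⟩).2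
    · simp only [hp, dif_neg, not_false_eq_true]
      exact hu0
  · intro u hu
    have hu' : u ∈ F := hfin.mem_toFinset.2 hu
    refine ⟨F.equivFin ⟨u, hu'⟩, lt_of_lt_of_le (F.equivFin ⟨u, hu'⟩).2 hcard, ?_⟩
    have h1 : ((F.equivFin ⟨u, hu'⟩ : Fin F.card) : ℕ) < F.card := (F.equivFin ⟨u, hu'⟩).2
    simp only [h1, dif_pos, Fin.eta, Equiv.symm_apply_apply]

lemma Fam.selfSimilar {s Q n : ℕ} {U : ℕ → Set (Finset ℕ)} (h : Fam s Q n U) {P : Finset ℕ}
    (hP : P ∈ U n) : ∃ F : ℕ → ℕ → Finset ℕ, SelfSimilar s Q n F ∧ ∃ p < s, F n p = P := by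
  have henum : ∀ j, ∃ e : ℕ → Finset ℕ, j ≤ n → (∀ p, e p ∈ U j) ∧
      ∀ u ∈ U j, ∃ p < s, e p = u := by
    intro j
    by_cases hj : j ≤ n
    · obtain ⟨e, he⟩ := exists_enum' (h.card_le j hj) (h.nonempty j hj)
      exact ⟨e, fun _ => he⟩
    · exact ⟨fun _ => ∅, fun h => absurd h hj⟩
  choose F hF using henum
  refine ⟨F, ⟨fun p _ => h.zero _ ((hF 0 (Nat.zero_le _)).1 p), ?_⟩, (hF n le_rfl).2 P hP⟩
  intro i hi p _
  obtain ⟨I, t, S, h1, h2, h3, h4⟩ := h.tiled i hi _ ((hF (i + 1) (by omega)).1 p)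
  have h5 : ∀ d, ∃ p', d ∈ I → p' < s ∧ F i p' = S d := by
    intro d
    by_cases hd : d ∈ I
    · obtain ⟨p', hp', he⟩ := (hF i hi.le).2 (S d) (h2 d hd)
      exact ⟨p', fun _ => ⟨hp', he⟩⟩
    · exact ⟨0, fun h => absurd h hd⟩
  choose v hv using h5
  refine ⟨I.image fun d => (t d, v d), card_image_le.trans h1, ?_, ?_, ?_⟩
  · intro q hq
    obtain ⟨d, hd, rfl⟩ := mem_image.1 hq
    exact (hv d hd).1
  · intro q hq q' hq' hne
    obtain ⟨d, hd, rfl⟩ := mem_image.1 hq
    obtain ⟨d', hd', rfl⟩ := mem_image.1 hq'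
    have hdd : d ≠ d' := by
      rintro rfl
      exact hne rfl
    have := h3 d hd d' hd' hdd
    simp only [(hv d hd).2, (hv d' hd').2]
    exact this
  · rw [h4]
    ext z
    simp only [mem_biUnion, mem_image]
    constructor
    · rintro ⟨d, hd, w, hw, rfl⟩
      exact ⟨(t d, v d), ⟨d, hd, rfl⟩, w, by rw [(hv d hd).2]; exact hw, rfl⟩
    · rintro ⟨q, ⟨d, hd, rfl⟩, w, hw, rfl⟩
      rw [(hv d hd).2] at hw
      exact ⟨d, hd, w, hw, rfl⟩

/-- Theorem G for families. -/
theorem genU (Q : ℕ) (α : ℝ) (hα : 0 < α) : ∃ c : ℝ, 0 < c ∧ ∀ s n : ℕ, 2 ≤ s → 1 ≤ n →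
    ∀ U : ℕ → Set (Finset ℕ), Fam s Q n U → ∀ P ∈ U n,
    Real.exp (α * n) ≤ (P.card : ℝ) →
    ∃ N, (P.card : ℝ) ^ (c / Real.log s) ≤ rpF P N := by
  obtain ⟨c, hc, h⟩ := gen Q α hα
  refine ⟨c, hc, ?_⟩
  intro s n hs hn U hU P hP hcard
  obtain ⟨F, hF, p, hp, rfl⟩ := hU.selfSimilar hP
  exact h s n hs hn F hF p hp hcard

/-- A chain of moduli. -/
def Chain (Q J : ℕ) (m : ℕ → ℕ) : Prop :=
  m 0 = 1 ∧ ∀ j < J, m j ∣ m (j + 1) ∧ 2 * m j ≤ m (j + 1) ∧ m (j + 1) ≤ Q * m j

lemma Chain.two_pow_le {Q J : ℕ} {m : ℕ → ℕ} (h : Chain Q J m) : ∀ j ≤ J, 2 ^ j ≤ m j := by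
  intro j
  induction j with
  | zero =>
    intro _
    rw [h.1, pow_zero]
  | succ j ih =>
    intro hj
    have h1 := (h.2 j (by omega)).2.1
    have h2 := ih (by omega)
    rw [pow_succ]
    omega

lemma Chain.dvd {Q J : ℕ} {m : ℕ → ℕ} (h : Chain Q J m) {i : ℕ} :
    ∀ j, i ≤ j → j ≤ J → m i ∣ m j := by
  intro j hij
  induction j, hij using Nat.le_induction with
  | base => intro _; exact dvd_rfl
  | succ j _ ih =>
    intro hj
    exact (ih (by omega)).trans (h.2 j (by omega)).1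

/-- The part of `A` below `X`. -/
noncomputable def cutF (A : Set ℕ) (X : ℕ) : Finset ℕ := by
  classical exact (range X).filter (· ∈ A)

lemma mem_cutF {A : Set ℕ} {X a : ℕ} : a ∈ cutF A X ↔ a < X ∧ a ∈ A := by
  classical
  unfold cutF
  rw [mem_filter, mem_range]

/-- The family of the high sections. -/
lemma fam_high {Q J s : ℕ} {m : ℕ → ℕ} (h : Chain Q J m) {A : Set ℕ}
    (hA : ∀ j ≤ J, (highSec A (m j) (m J)).encard ≤ s) :
    Fam s Q J (fun i => {P : Finset ℕ | ∃ r < m (J - i), P =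
      (cutF {n | m (J - i) * n + r < m J ∧ m (J - i) * n + r ∈ A} (m J)).image
        (m (J - i) * ·)}) := by
  have hpos : ∀ j ≤ J, 0 < m j := fun j hj =>
    lt_of_lt_of_le (Nat.pos_of_ne_zero (by positivity)) (h.two_pow_le j hj)
  have hcut : ∀ j ≤ J, ∀ r n, m j * n + r < m J → n < m J := by
    intro j hj r n hn
    have := hpos j hj
    calc n ≤ m j * n := Nat.le_mul_of_pos_left _ this
      _ ≤ m j * n + r := Nat.le_add_right _ _
      _ < m J := hn
  refine ⟨?_, ?_, ?_, ?_⟩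
  · intro i _
    have hsub : {P : Finset ℕ | ∃ r < m (J - i), P =
        (cutF {n | m (J - i) * n + r < m J ∧ m (J - i) * n + r ∈ A} (m J)).image
        (m (J - i) * ·)} ⊆ (fun T : Set ℕ => (cutF T (m J)).image (m (J - i) * ·)) ''
          (highSec A (m (J - i)) (m J)) := by
      rintro P ⟨r, hr, rfl⟩
      exact ⟨_, ⟨r, hr, rfl⟩, rfl⟩
    exact (Set.encard_le_encard hsub).trans ((Set.encard_image_le _ _).trans (hA _ (by omega)))
  · intro i _
    exact ⟨_, 0, hpos _ (by omega), rfl⟩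
  · rintro P ⟨r, hr, rfl⟩
    rw [Nat.sub_zero]
    refine card_image_le.trans ?_
    rw [card_le_one]
    intro a ha b hb
    rw [mem_cutF] at ha hb
    have h1 : m J * a + r < m J := ha.2.1
    have h2 : m J * b + r < m J := hb.2.1
    have h3 : ∀ a, m J * a + r < m J → a = 0 := by
      intro a ha
      rcases Nat.eq_zero_or_pos a with h | h
      · exact h
      · have := Nat.le_mul_of_pos_right (m J) h
        omega
    rw [h3 a h1, h3 b h2]
  · rintro i hi P ⟨r, hr, rfl⟩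
    obtain ⟨j, hj⟩ : ∃ j, j = J - (i + 1) := ⟨_, rfl⟩
    have hji : J - i = j + 1 := by omega
    rw [← hj] at hr ⊢
    rw [hji]
    have hjJ : j < J := by omega
    obtain ⟨b, hb⟩ := (h.2 j hjJ).1
    have hmj := hpos j hjJ.le
    have hbpos : 0 < b := by
      rcases Nat.eq_zero_or_pos b with h0 | h0
      · have := hpos (j + 1) hjJ
        rw [hb, h0, mul_zero] at this; omega
      · exact h0
    have hbQ : b ≤ Q := by
      have h1 := (h.2 j hjJ).2.2
      rw [hb, mul_comm] at h1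
      exact Nat.le_of_mul_le_mul_right h1 hmj
    refine ⟨range b, fun d => m j * d, fun d => (cutF {n | m (j + 1) * n + (m j * d + r) < m J ∧
      m (j + 1) * n + (m j * d + r) ∈ A} (m J)).image (m (j + 1) * ·), ?_, ?_, ?_, ?_⟩
    · rw [card_range]; exact hbQ
    · intro d hd
      rw [mem_range] at hd
      refine ⟨m j * d + r, ?_, rfl⟩
      calc m j * d + r < m j * d + m j := by omega
        _ = m j * (d + 1) := by ring
        _ ≤ m j * b := Nat.mul_le_mul_left _ hd
        _ = m (j + 1) := hb.symm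
    · intro d hd d' hd' hne
      rw [mem_range] at hd hd'
      rw [Finset.disjoint_left]
      intro z hz hz'
      obtain ⟨w, hw, h1⟩ := mem_image.1 hz
      obtain ⟨w', hw', h1'⟩ := mem_image.1 hz'
      obtain ⟨x, _, h2⟩ := mem_image.1 hw
      obtain ⟨x', _, h2'⟩ := mem_image.1 hw'
      simp only at h1 h1' h2 h2'
      rw [← h2, hb] at h1
      rw [← h2', hb] at h1'
      have h3 : m j * (d + b * x) = m j * (d' + b * x') := by
        calc m j * (d + b * x) = m j * d + m j * b * x := by ring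
          _ = m j * d' + m j * b * x' := by rw [h1, h1']
          _ = m j * (d' + b * x') := by ring
      have h4 := Nat.eq_of_mul_eq_mul_left hmj h3
      have h5 : (d + b * x) % b = (d' + b * x') % b := by rw [h4]
      rw [Nat.add_mul_mod_self_left, Nat.add_mul_mod_self_left, Nat.mod_eq_of_lt hd,
        Nat.mod_eq_of_lt hd'] at h5
      exact hne h5
    · ext z
      simp only [mem_biUnion, mem_image, mem_cutF, mem_range]
      have key : ∀ n' d, m (j + 1) * n' + (m j * d + r) = m j * (b * n' + d) + r := by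
        intro n' d
        rw [hb]; ring
      constructor
      · rintro ⟨n, ⟨_, hn1, hn2⟩, rfl⟩
        refine ⟨n % b, Nat.mod_lt _ hbpos, m (j + 1) * (n / b), ⟨n / b, ⟨?_, ?_, ?_⟩, rfl⟩, ?_⟩
        · refine hcut (j + 1) hjJ (m j * (n % b) + r) _ ?_
          rw [key, Nat.div_add_mod]
          exact hn1
        · rw [key, Nat.div_add_mod]
          exact hn1
        · rw [key, Nat.div_add_mod]
          exact hn2
        · have := key (n / b) (n % b)
          rw [Nat.div_add_mod] at this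
          omega
      · rintro ⟨d, _, w, ⟨n', ⟨_, hn1, hn2⟩, rfl⟩, rfl⟩
        rw [key] at hn1 hn2
        refine ⟨b * n' + d, ⟨hcut j hjJ.le r _ hn1, hn1, hn2⟩, ?_⟩
        rw [hb]; ring

/-- The family of the low sections. -/
lemma fam_low {Q J s : ℕ} {m : ℕ → ℕ} (h : Chain Q J m) {A : Set ℕ}
    (hA : ∀ j ≤ J, (lowSec A (m j) (m J)).encard ≤ s) :
    Fam s Q J (fun i => {P : Finset ℕ | ∃ n, m i * n < m J ∧ P =
      cutF {r | r < m i ∧ m i * n + r ∈ A} (m J)}) := by
  have hpos : ∀ j ≤ J, 0 < m j := fun j hj =>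
    lt_of_lt_of_le (Nat.pos_of_ne_zero (by positivity)) (h.two_pow_le j hj)
  refine ⟨?_, ?_, ?_, ?_⟩
  · intro i hi
    have hsub : {P : Finset ℕ | ∃ n, m i * n < m J ∧ P =
        cutF {r | r < m i ∧ m i * n + r ∈ A} (m J)} ⊆ (fun T : Set ℕ => cutF T (m J)) ''
          (lowSec A (m i) (m J)) := by
      rintro P ⟨n, hn, rfl⟩
      exact ⟨_, ⟨n, hn, rfl⟩, rfl⟩
    exact (Set.encard_le_encard hsub).trans ((Set.encard_image_le _ _).trans (hA _ hi))
  · intro i _
    exact ⟨_, 0, by rw [mul_zero]; exact hpos J le_rfl, rfl⟩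
  · rintro P ⟨n, hn, rfl⟩
    rw [card_le_one]
    intro a ha b hb
    rw [mem_cutF, h.1] at ha hb
    have h1 : a < 1 := ha.2.1
    have h2 : b < 1 := hb.2.1
    omega
  · rintro i hi P ⟨n, hn, rfl⟩
    obtain ⟨b, hb⟩ := (h.2 i hi).1
    have hmi := hpos i hi.le
    have hbpos : 0 < b := by
      rcases Nat.eq_zero_or_pos b with h0 | h0
      · have := hpos (i + 1) hi
        rw [hb, h0, mul_zero] at this; omega
      · exact h0
    have hbQ : b ≤ Q := by
      have h1 := (h.2 i hi).2.2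
      rw [hb, mul_comm] at h1
      exact Nat.le_of_mul_le_mul_right h1 hmi
    have hmJ : m i ≤ m J := Nat.le_of_dvd (hpos J le_rfl) (h.dvd J hi.le le_rfl)
    have hmJ' : m (i + 1) ≤ m J := Nat.le_of_dvd (hpos J le_rfl) (h.dvd J hi le_rfl)
    have key : ∀ d r, m (i + 1) * n + (m i * d + r) = m i * (b * n + d) + r := by
      intro d r
      rw [hb]; ring
    have hlt : ∀ d < b, ∀ r < m i, m i * d + r < m (i + 1) := by
      intro d hd r hr
      calc m i * d + r < m i * d + m i := by omega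
        _ = m i * (d + 1) := by ring
        _ ≤ m i * b := Nat.mul_le_mul_left _ hd
        _ = m (i + 1) := hb.symm
    refine ⟨range b, fun d => m i * d, fun d =>
      cutF {r | r < m i ∧ m i * (b * n + d) + r ∈ A} (m J), ?_, ?_, ?_, ?_⟩
    · rw [card_range]; exact hbQ
    · intro d hd
      rw [mem_range] at hd
      refine ⟨b * n + d, ?_, rfl⟩
      obtain ⟨e, he⟩ := h.dvd J hi le_rfl
      have h1 : n < e := by
        rw [he] at hn
        exact Nat.lt_of_mul_lt_mul_left hn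
      have h2 : b * n + d < b * e := by
        calc b * n + d < b * n + b := by omega
          _ = b * (n + 1) := by ring
          _ ≤ b * e := Nat.mul_le_mul_left _ h1
      calc m i * (b * n + d) < m i * (b * e) := Nat.mul_lt_mul_of_pos_left h2 hmi
        _ = m J := by rw [he, hb]; ring
    · intro d hd d' hd' hne
      rw [Finset.disjoint_left]
      intro z hz hz'
      obtain ⟨w, hw, h1⟩ := mem_image.1 hz
      obtain ⟨w', hw', h1'⟩ := mem_image.1 hz'
      rw [mem_cutF] at hw hw'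
      simp only at h1 h1'
      have hw1 : w < m i := hw.2.1
      have hw1' : w' < m i := hw'.2.1
      have h3 : (m i * d + w) / m i = (m i * d' + w') / m i := by rw [h1, h1']
      rw [Nat.mul_add_div hmi, Nat.mul_add_div hmi, Nat.div_eq_of_lt hw1,
        Nat.div_eq_of_lt hw1'] at h3
      exact hne (by omega)
    · ext z
      simp only [mem_biUnion, mem_image, mem_cutF, mem_range]
      constructor
      · rintro ⟨_, hz1, hz2⟩
        refine ⟨z / m i, ?_, z % m i, ⟨?_, Nat.mod_lt _ hmi, ?_⟩, Nat.div_add_mod _ _⟩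
        · rw [Nat.div_lt_iff_lt_mul hmi, mul_comm, ← hb]
          exact hz1
        · exact lt_of_lt_of_le (Nat.mod_lt _ hmi) hmJ
        · rw [← key, Nat.div_add_mod]
          exact hz2
      · rintro ⟨d, hd, w, ⟨_, hw1, hw2⟩, rfl⟩
        have h1 := hlt d hd w hw1
        refine ⟨lt_of_lt_of_le h1 hmJ', h1, ?_⟩
        rw [key]
        exact hw2

lemma highSec_top {Q J : ℕ} {m : ℕ → ℕ} (h : Chain Q J m) (A : Set ℕ) :
    cutF A (m J) ∈ {P : Finset ℕ | ∃ r < m (J - J), P =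
      (cutF {n | m (J - J) * n + r < m J ∧ m (J - J) * n + r ∈ A} (m J)).image
        (m (J - J) * ·)} := by
  refine ⟨0, ?_, ?_⟩
  · rw [Nat.sub_self, h.1]; exact one_pos
  · ext a
    rw [Nat.sub_self, h.1, mem_cutF, mem_image]
    constructor
    · rintro ⟨h1, h2⟩
      refine ⟨a, ?_, one_mul a⟩
      rw [mem_cutF]
      refine ⟨h1, ?_, ?_⟩
      · rw [one_mul, add_zero]; exact h1
      · rw [one_mul, add_zero]; exact h2
    · rintro ⟨a', h1, h2⟩
      rw [one_mul] at h2
      rw [mem_cutF, h2] at h1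
      refine ⟨h1.1, ?_⟩
      have h3 := h1.2.2
      rw [one_mul, add_zero] at h3
      exact h3

lemma lowSec_top {Q J : ℕ} {m : ℕ → ℕ} (h : Chain Q J m) (A : Set ℕ) :
    cutF A (m J) ∈ {P : Finset ℕ | ∃ n, m J * n < m J ∧ P =
      cutF {r | r < m J ∧ m J * n + r ∈ A} (m J)} := by
  have hpos : 0 < m J :=
    lt_of_lt_of_le (Nat.pos_of_ne_zero (by positivity)) (h.two_pow_le J le_rfl)
  refine ⟨0, ?_, ?_⟩
  · rw [mul_zero]; exact hpos
  · ext a
    rw [mem_cutF, mem_cutF]
    constructor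
    · rintro ⟨h1, h2⟩
      refine ⟨h1, h1, ?_⟩
      rw [mul_zero, zero_add]; exact h2
    · rintro ⟨h1, _, h2⟩
      rw [mul_zero, zero_add] at h2
      exact ⟨h1, h2⟩

/-- **Few sections, many representations.** -/
theorem few_sections (Q : ℕ) (δ : ℝ) (hδ : 0 < δ) : ∃ c : ℝ, 0 < c ∧
    ∀ (J : ℕ) (m : ℕ → ℕ), 1 ≤ J → Chain Q J m → ∀ s : ℕ, 2 ≤ s → ∀ A : Set ℕ,
    ((∀ j ≤ J, (highSec A (m j) (m J)).encard ≤ s) ∨
      (∀ j ≤ J, (lowSec A (m j) (m J)).encard ≤ s)) →
    (m J : ℝ) ^ δ ≤ ((cutF A (m J)).card : ℝ) →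
    ∃ N, (m J : ℝ) ^ (c / Real.log s) ≤ rpF (cutF A (m J)) N := by
  obtain ⟨c, hc, hgen⟩ := genU Q (δ * Real.log 2) (mul_pos hδ (Real.log_pos (by norm_num)))
  refine ⟨δ * c, mul_pos hδ hc, ?_⟩
  intro J m hJ hm s hs A hA hcard
  have hs2 : (2 : ℝ) ≤ s := by exact_mod_cast hs
  have hlogs : 0 < Real.log s := Real.log_pos (by linarith)
  have hm2 : (2 : ℝ) ^ J ≤ (m J : ℝ) := by exact_mod_cast hm.two_pow_le J le_rfl
  have hmpos : (0 : ℝ) < m J := lt_of_lt_of_le (by positivity) hm2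
  have hexp : Real.exp (δ * Real.log 2 * J) ≤ ((cutF A (m J)).card : ℝ) := by
    refine le_trans ?_ hcard
    rw [Real.rpow_def_of_pos hmpos]
    apply Real.exp_le_exp.2
    have h1 : J * Real.log 2 ≤ Real.log (m J) := by
      rw [← Real.log_pow]
      exact Real.log_le_log (by positivity) hm2
    calc δ * Real.log 2 * J = (J * Real.log 2) * δ := by ring
      _ ≤ Real.log (m J) * δ := mul_le_mul_of_nonneg_right h1 hδ.le
  have hfin : ∃ N, ((cutF A (m J)).card : ℝ) ^ (c / Real.log s) ≤ rpF (cutF A (m J)) N := by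
    rcases hA with hA | hA
    · exact hgen s J hs hJ _ (fam_high hm hA) _ (highSec_top hm A) hexp
    · exact hgen s J hs hJ _ (fam_low hm hA) _ (lowSec_top hm A) hexp
  obtain ⟨N, hN⟩ := hfin
  refine ⟨N, le_trans ?_ hN⟩
  have h1 : (m J : ℝ) ^ (δ * c / Real.log s) = ((m J : ℝ) ^ δ) ^ (c / Real.log s) := by
    rw [← Real.rpow_mul hmpos.le]
    congr 1
    ring
  rw [h1]
  exact Real.rpow_le_rpow (by positivity) hcard (by positivity)

end Pool.Agent.Helper1.TY
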