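import Pool.Agent.Helper1.TY.Final2

namespace Pool.Agent.Results.MP_12a1af_nt.TimeSpaceTradeoff

open Filter Pool.Agent.Helper1.TY Pool.Agent.Helper45.TY

theorem result (q t : ℕ) (d : ℝ) (hq : 2 ≤ q) (ht : 1 ≤ t) (hd : 0 < d) :
    (∃ c C : ℝ, 0 < c ∧ 0 < C ∧ ∀ n : ℕ, 1 ≤ n →
      (∀ (A : Set ℕ) (P : ℝ), Cost q t d n A P →
        ∃ N < 2 * q ^ n, Real.exp (c * n ^ 2 / P) ≤ rep A N) ∧
      (2 * d < t → ∀ P : ℝ, n ≤ P → P ≤ n ^ 2 →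
        ∃ A : Set ℕ, Cost q t d n A (C * P) ∧ ∀ N, (rep A N : ℝ) ≤ Real.exp (C * n ^ 2 / P)) ∧
      ∀ A : Set ℕ, (q : ℝ) ^ (d * n) ≤ (num A (q ^ n) : ℝ) ^ t → Cost q t d n A (C * n ^ 2)) ∧
    ∀ A : Set ℕ, (∀ ε : ℝ, 0 < ε → ∃ᶠ n : ℕ in atTop, Cost q t d n A (ε * n ^ 2)) →
      ∀ g : ℕ, ∃ N, g ≤ rep A N :=
  main2 q t d hq ht hd

end Pool.Agent.Results.MP_12a1af_nt.TimeSpaceTradeoff
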