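import Pool.Agent.Helper1.TY.Pairs

/-!
# Recognising elements, pairs, tuples of elements of a set on one tape
-/

set_option autoImplicit false

namespace Pool.Agent.Helper1.TY

open Filter Pool.Agent.Helper45.TY

/-- The initial tape of the `t` words `x 0, .., x (t - 1)` of length `n` on parallel tracks: the
cell `z` with `0 ≤ z < n` contains `enc z (some a)`, where `a k` is the letter number `z` of
`x k`, and every other cell `z` contains `enc z none`. -/
def tape {n q t : ℕ} {Γ : Type} (enc : ℤ → Option (Fin t → Fin q) → Γ)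
    (x : Fin t → Fin n → Fin q) (z : ℤ) : Γ :=
  enc z (if h : 0 ≤ z ∧ z < n then some (fun k => x k ⟨z.toNat, by omega⟩) else none)

/-- The initial configuration on the words `x`. -/
def initial {n q t : ℕ} {Q Γ : Type} (M : Machine Q Γ) (enc : ℤ → Option (Fin t → Fin q) → Γ)
    (x : Fin t → Fin n → Fin q) : Config Q Γ :=
  ⟨M.start, 0, tape enc x⟩

/-- `Cost q t d n A P`: some nondeterministic one-tape machine (finite set `Q` of states, any tape
alphabet `Γ`) reads `t` numbers below `q ^ n`, written in base `q` on `t` tracks (the cell `z` with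
`0 ≤ z < n` carries the digits number `π z`; every cell may carry further information which depends
on the cell only), accepts only if all `t` numbers are in `A`, and accepts at least `q ^ (d n)`
tuples in at most `T` steps, where `n ≤ T` and `T * log (|Q| + 1) ≤ P`. -/
def Cost (q t : ℕ) (d : ℝ) (n : ℕ) (A : Set ℕ) (P : ℝ) : Prop :=
  ∃ (Q Γ : Type) (_ : Fintype Q) (M : Machine Q Γ) (T : ℕ)
    (enc : ℤ → Option (Fin t → Fin q) → Γ) (π : Equiv.Perm (Fin n)),
    n ≤ T ∧ T * Real.log (Fintype.card Q + 1) ≤ P ∧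
    (∀ x : Fin t → Fin n → Fin q, M.Accepts (initial M enc x) →
      ∀ k, Helper45.TY.val (digitVal π) (x k) ∈ A) ∧
    (q : ℝ) ^ (d * n) ≤ {x : Fin t → Fin n → Fin q | M.AcceptsIn T (initial M enc x)}.ncard

/-- One letter for `t` letters. -/
def merge {n q t : ℕ} (x : Fin t → Fin n → Fin q) (i : Fin n) : Fin (q ^ t) :=
  finFunctionFinEquiv (fun k => x k i)

lemma track_merge {n q t : ℕ} (x : Fin t → Fin n → Fin q) (k : Fin t) :
    track k (merge x) = x k := by
  funext i
  unfold track merge
  rw [Equiv.symm_apply_apply]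

lemma merge_track {n q t : ℕ} (w : Fin n → Fin (q ^ t)) : merge (fun k => track k w) = w :=
  tracks_injective fun k => track_merge _ k

lemma init_merge {n q t : ℕ} {Q Γ : Type} (M : Machine Q Γ)
    (enc : ℤ → Option (Fin t → Fin q) → Γ) (x : Fin t → Fin n → Fin q) :
    M.init (fun z o => enc z (o.map finFunctionFinEquiv.symm)) (merge x) = initial M enc x := by
  unfold Machine.init initial
  congr 1
  funext z
  unfold inputTape tape
  by_cases h : 0 ≤ z ∧ z < n
  · rw [dif_pos h, dif_pos h]
    simp only [Option.map_some]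
    unfold merge
    rw [Equiv.symm_apply_apply]
  · rw [dif_neg h, dif_neg h]
    simp only [Option.map_none]

/-- **The inequality.** -/
theorem of_cost (q t : ℕ) (hq : 2 ≤ q) (ht : 1 ≤ t) (d : ℝ) (hd : 0 < d) :
    ∃ c : ℝ, 0 < c ∧ ∀ (n : ℕ) (A : Set ℕ) (P : ℝ), 1 ≤ n → Cost q t d n A P →
      ∃ N < 2 * q ^ n, Real.exp (c * n ^ 2 / P) ≤ rep A N := by
  have ht0 : (0 : ℝ) < t := by exact_mod_cast ht
  have hqt : 2 ≤ q ^ t := hq.trans (Nat.le_self_pow (by omega) q)
  obtain ⟨c, hc, h⟩ := arith (q ^ t) hqt (d / t) (by positivity)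
  refine ⟨c, hc, ?_⟩
  rintro n A P hn ⟨Q, Γ, _, M, T, enc, π, hT, hP, hA, hcard⟩
  have hQ : 0 < Fintype.card Q := Fintype.card_pos_iff.2 ⟨M.start⟩
  have hQr : (1 : ℝ) ≤ Fintype.card Q := by exact_mod_cast hQ
  have hlog : 0 < Real.log (Fintype.card Q + 1) := Real.log_pos (by linarith)
  have hTr : (1 : ℝ) ≤ T := by exact_mod_cast hn.trans hT
  have hpos : 0 < T * Real.log (Fintype.card Q + 1) := by positivity
  -- the elements of `A` below `q ^ n`
  set B : Set ℕ := {a | a ∈ A ∧ a < q ^ n} with hB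
  set e : ℤ → Option (Fin (q ^ t)) → Γ := fun z o => enc z (o.map finFunctionFinEquiv.symm)
    with he
  have hinit : ∀ x : Fin t → Fin n → Fin q, M.init e (merge x) = initial M enc x :=
    fun x => init_merge M enc x
  have hcard' : {x : Fin t → Fin n → Fin q | M.AcceptsIn T (initial M enc x)}.ncard ≤
      {w : Fin n → Fin (q ^ t) | M.AcceptsIn T (M.init e w)}.ncard := by
    refine Set.ncard_le_ncard_of_injOn merge ?_ ?_ (Set.toFinite _)
    · intro x hx
      change M.AcceptsIn T (M.init e (merge x))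
      rw [hinit]
      exact hx
    · intro x _ y _ hxy
      funext k
      rw [← track_merge x k, ← track_merge y k, hxy]
  have hne : {w : Fin n → Fin (q ^ t) | M.AcceptsIn T (M.init e w)}.Nonempty := by
    rw [Set.nonempty_iff_ne_empty]
    intro h0
    rw [h0, Set.ncard_empty] at hcard'
    have h1 : (0 : ℝ) < (q : ℝ) ^ (d * n) := by
      have : (0 : ℝ) < q := by positivity
      positivity
    have h2 := h1.trans_le hcard
    have h3 : {x : Fin t → Fin n → Fin q | M.AcceptsIn T (initial M enc x)}.ncard = 0 := by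
      omega
    rw [h3] at h2
    exact absurd h2 (by norm_num)
  obtain ⟨N, hN⟩ := h (Fintype.card Q) hQ n T
    {w : Fin n → Fin (q ^ t) | M.AcceptsIn T (M.init e w)}.ncard B hn hT (by
      refine le_trans (le_of_eq ?_) (hcard.trans (by exact_mod_cast hcard'))
      push_cast
      rw [← Real.rpow_natCast, ← Real.rpow_mul (Nat.cast_nonneg q)]
      congr 1
      field_simp) (by
      intro ℓ hℓ
      refine count_tuples M (by omega) ht e (digitVal π) B ?_ (val_digitVal_injective π) hne hℓ
      intro w hw k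
      have h1 : M.Accepts (initial M enc fun k => track k w) := by
        rw [← hinit, merge_track]; exact hw
      exact ⟨hA _ h1 k, val_digitVal_lt π _⟩)
  have hNpos : 0 < rep B N := by
    have : (0 : ℝ) < rep B N := (Real.exp_pos _).trans_le hN
    exact_mod_cast this
  refine ⟨N, lt_of_rep_pos (A := B) (fun a ha => ha.2) hNpos, ?_⟩
  have h1 : (rep B N : ℝ) ≤ rep A N := by
    have h2 : B ⊆ A := fun a ha => ha.1
    exact_mod_cast rep_mono h2 N
  refine le_trans ?_ (hN.trans h1)
  apply Real.exp_le_exp.2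
  exact div_le_div_of_nonneg_left (by positivity) hpos hP

/-- Cost `o(n ^ 2)` is impossible if the representation function is bounded. -/
theorem unbounded (q t : ℕ) (hq : 2 ≤ q) (ht : 1 ≤ t) (d : ℝ) (hd : 0 < d) (A : Set ℕ)
    (hA : ∀ ε : ℝ, 0 < ε → ∃ᶠ n : ℕ in atTop, Cost q t d n A (ε * n ^ 2)) (g : ℕ) :
    ∃ N, g ≤ rep A N := by
  obtain ⟨c, hc, h⟩ := of_cost q t hq ht d hd
  have hε : 0 < c / (g + 1 : ℝ) := by positivity
  obtain ⟨n, hn, hcheap⟩ := (frequently_atTop.1 (hA _ hε)) 1
  obtain ⟨N, _, hr⟩ := h n A _ hn hcheap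
  refine ⟨N, ?_⟩
  have hn0 : (0 : ℝ) < n := by exact_mod_cast (by omega : 0 < n)
  have h1 : c * (n : ℝ) ^ 2 / (c / (g + 1) * n ^ 2) = g + 1 := by
    field_simp
  rw [h1] at hr
  have h2 : (g : ℝ) + 1 + 1 ≤ Real.exp (g + 1) := Real.add_one_le_exp _
  have h3 : (g : ℝ) ≤ rep A N := by linarith
  exact_mod_cast h3

/-- **Every set has cost at most `C n ^ 2`.** -/
theorem cost_le (q t : ℕ) : ∃ C : ℝ, 0 < C ∧
    ∀ (d : ℝ) (n : ℕ) (A : Set ℕ), 1 ≤ n → (q : ℝ) ^ (d * n) ≤ (num A (q ^ n) : ℝ) ^ t →
      Cost q t d n A (C * n ^ 2) := by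
  have hqt0 : (0 : ℝ) ≤ ((q ^ t : ℕ) : ℝ) := Nat.cast_nonneg _
  have hlog : 0 < Real.log (((q ^ t : ℕ) : ℝ) + 4) := Real.log_pos (by linarith)
  refine ⟨6 * Real.log (((q ^ t : ℕ) : ℝ) + 4), by positivity, ?_⟩
  intro d n A hn hA
  set π : Equiv.Perm (Fin n) := Equiv.refl _ with hπ
  obtain ⟨Q, G, _, M, enc, hQ, hacc, hin⟩ := gather n (q ^ t)
    {w : Fin n → Fin (q ^ t) | ∀ k : Fin t, Helper45.TY.val (digitVal π) (track k w) ∈ A}
  set e : ℤ → Option (Fin t → Fin q) → G := fun z o => enc z (o.map finFunctionFinEquiv)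
    with he
  have hinit : ∀ x : Fin t → Fin n → Fin q, initial M e x = M.init enc (merge x) := by
    intro x
    unfold Machine.init initial
    congr 1
    funext z
    unfold inputTape tape
    by_cases h : 0 ≤ z ∧ z < n
    · rw [dif_pos h, dif_pos h]
      simp only [he, Option.map_some]
      rfl
    · rw [dif_neg h, dif_neg h]
      simp only [he, Option.map_none]
  refine ⟨Q, G, inferInstance, M, n ^ 2 + 3 * n + 2, e, π, ?_, ?_, ?_, ?_⟩
  · nlinarith
  · have hnr : (1 : ℝ) ≤ n := by exact_mod_cast hn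
    have h1 : (Fintype.card Q : ℝ) + 1 = ((q ^ t : ℕ) : ℝ) + 4 := by
      rw [hQ]
      push_cast
      ring
    have h2 : ((n ^ 2 + 3 * n + 2 : ℕ) : ℝ) ≤ 6 * n ^ 2 := by
      push_cast
      nlinarith
    rw [h1]
    calc ((n ^ 2 + 3 * n + 2 : ℕ) : ℝ) * Real.log (((q ^ t : ℕ) : ℝ) + 4)
        ≤ (6 * n ^ 2) * Real.log (((q ^ t : ℕ) : ℝ) + 4) :=
          mul_le_mul_of_nonneg_right h2 hlog.le
      _ = 6 * Real.log (((q ^ t : ℕ) : ℝ) + 4) * n ^ 2 := by ring
  · intro x hx k
    rw [hinit] at hx
    have h1 := (hacc _).1 hx k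
    rw [track_merge] at h1
    exact h1
  · refine hA.trans ?_
    have h1 : (num A (q ^ n)) ^ t ≤
        {x : Fin t → Fin n → Fin q | M.AcceptsIn (n ^ 2 + 3 * n + 2) (initial M e x)}.ncard := by
      classical
      set U : Finset (Fin n → Fin q) :=
        Finset.univ.filter fun w => Helper45.TY.val (digitVal π) w ∈ A with hU
      have h2 : num A (q ^ n) ≤ U.card := by
        unfold num
        rw [← Set.ncard_coe_finset]
        have hsub : A ∩ Set.Iio (q ^ n) ⊆
            (fun w : Fin n → Fin q => Helper45.TY.val (digitVal π) w) '' (U : Set _) := by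
          rintro a ⟨ha, hlt⟩
          obtain ⟨w, hw⟩ := exists_val_eq π (Set.mem_Iio.1 hlt)
          refine ⟨w, ?_, hw⟩
          rw [Finset.mem_coe, hU, Finset.mem_filter]
          refine ⟨Finset.mem_univ _, ?_⟩
          rw [hw]; exact ha
        exact (Set.ncard_le_ncard hsub (Set.toFinite _)).trans
          (Set.ncard_image_le (Set.toFinite _))
      calc (num A (q ^ n)) ^ t ≤ U.card ^ t := Nat.pow_le_pow_left h2 t
        _ = (Fintype.piFinset fun _ : Fin t => U).card := by
            rw [Fintype.card_piFinset, Finset.prod_const, Finset.card_univ, Fintype.card_fin]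
        _ ≤ _ := by
            rw [← Set.ncard_coe_finset]
            refine Set.ncard_le_ncard ?_ (Set.toFinite _)
            intro x hx
            rw [Finset.mem_coe, Fintype.mem_piFinset] at hx
            change M.AcceptsIn _ (initial M e x)
            rw [hinit]
            refine hin _ fun k => ?_
            rw [track_merge]
            exact (Finset.mem_filter.1 (hx k)).2
    exact_mod_cast h1

end Pool.Agent.Helper1.TY
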